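import Pool.Agent.Q62.PC.KO

/-! Localisation to the cells. -/

open MeasureTheory Set Filter Topology
open scoped ENNReal NNReal ContDiff

namespace Pool.Agent.Q62.PC

theorem sum_le {N : ℕ} {ι : Type*} [Countable ι] {B : ι → Set (E N)}
    (hBm : ∀ i, MeasurableSet (B i)) (hBd : Pairwise (Function.onFun Disjoint B)) {f g : E N → ℝ}
    (hf : Integrable f (volume : Measure (E N))) (hg : Integrable g (volume : Measure (E N)))
    {c : ℝ} (h : ∀ i, ∫ x in B i, f x ≤ c * ∫ x in B i, g x) :
    ∫ x in ⋃ i, B i, f x ≤ c * ∫ x in ⋃ i, B i, g x := by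
  have h1 := hasSum_integral_iUnion hBm hBd hf.integrableOn
  have h2 := (hasSum_integral_iUnion hBm hBd hg.integrableOn).mul_left c
  exact hasSum_le h h1 h2

theorem cutoff (N : ℕ) (δ : ℝ) (hδ : 0 < δ) : ∃ (χ : E N → ℝ) (K : ℝ), 0 ≤ K ∧ ContDiff ℝ ∞ χ ∧
    (∀ x, 0 ≤ χ x ∧ χ x ≤ 1) ∧ (∀ x, ‖x‖ ≤ δ / 2 → χ x = 1) ∧ (∀ x, δ ≤ ‖x‖ → χ x = 0) ∧
    (∀ x, ‖gradient χ x‖ ≤ K) ∧ (∀ x, χ x = 0 → gradient χ x = 0) ∧
    (∀ x, χ x = 1 → gradient χ x = 0) := by
  let b : ContDiffBump (0 : E N) := ⟨δ / 2, δ, by positivity, by linarith⟩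
  have hT : IsTest (b : E N → ℝ) := ⟨b.contDiff, b.hasCompactSupport⟩
  obtain ⟨K, hK⟩ := (grad_cont hT.c1).bounded_above_of_compact_support (grad_supp hT.2)
  refine ⟨b, K, (norm_nonneg _).trans (hK 0), b.contDiff, fun x => ⟨b.nonneg, b.le_one⟩, ?_, ?_,
    hK, ?_, ?_⟩
  · intro x hx
    exact b.one_of_mem_closedBall (by rw [mem_closedBall_zero_iff]; exact hx)
  · intro x hx
    have : x ∉ Function.support b := by rw [b.support_eq, mem_ball_zero_iff, not_lt]; exact hx
    simpa using this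
  · intro x hx
    have hmin : IsLocalMin b x := Filter.Eventually.of_forall fun y => by rw [hx]; exact b.nonneg
    simp only [gradient]
    rw [hmin.fderiv_eq_zero]; simp
  · intro x hx
    have hmax : IsLocalMax b x := Filter.Eventually.of_forall fun y => by rw [hx]; exact b.le_one
    simp only [gradient]
    rw [hmax.fderiv_eq_zero]; simp

theorem grad_shift {N : ℕ} (χ : E N → ℝ) (a x : E N) :
    gradient (fun y => χ (y - a)) x = gradient χ (x - a) := by
  simp only [gradient]
  rw [fderiv_comp_sub (f := χ)]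

theorem Q_meas (N : ℕ) (ε : ℝ) : Measurable (Q ε : E N → ℝ) := by
  unfold Q
  exact Measurable.ite (core_meas N ε) measurable_const measurable_const

theorem Q_abs {N : ℕ} (ε : ℝ) (x : E N) : |Q ε x| = 1 := by
  by_cases h : x ∈ core N ε
  · rw [Q_of_mem h]; simp
  · rw [Q_of_notMem h]; simp

theorem Q_int {N : ℕ} (ε : ℝ) {f : E N → ℝ} (hf : Integrable f (volume : Measure (E N))) :
    Integrable (fun x => Q ε x * f x) (volume : Measure (E N)) :=
  hf.bdd_mul (c := 1) (Q_meas N ε).aestronglyMeasurable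
    (Eventually.of_forall fun x => by rw [Real.norm_eq_abs, Q_abs])

/-- a point of the core close to `z` is in the ball around `z` -/
theorem core_near {N : ℕ} {ε δ : ℝ} (h : ε + δ ≤ 1) {z : Fin N → ℤ} {x : E N}
    (hx : x ∈ Metric.ball (pt z : E N) δ) (hc : x ∈ core N ε) : x ∈ Metric.ball (pt z : E N) ε := by
  obtain ⟨w, hw⟩ := mem_iUnion.1 hc
  rcases eq_or_ne w z with e | e
  · rwa [← e]
  · exfalso
    rw [Metric.mem_ball] at hx hw
    have h3 := dist_pt (N := N) e
    have h4 := dist_triangle (pt w : E N) x (pt z)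
    rw [dist_comm (pt w : E N) x] at h4
    linarith

theorem disj {N : ℕ} {δ : ℝ} (h : δ ≤ 1 / 2) :
    Pairwise (Function.onFun Disjoint fun z : Fin N → ℤ => Metric.ball (pt z : E N) δ) := by
  intro z w hzw
  refine Metric.ball_disjoint_ball ?_
  have := dist_pt (N := N) hzw
  linarith

/-- localisation to the cell of `z` -/
theorem cell (N : ℕ) (p : ℝ) (hp : 2 < p) (δ : ℝ) (hδ : 0 < δ) (hδ1 : δ < 1 / 2) :
    ∃ C2 C3 : ℝ, 1 ≤ C2 ∧ 0 < C3 ∧ ∀ ε : ℝ, 0 < ε → 4 * ε ≤ δ → ∀ (u : E N → ℝ) (g : E N → E N),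
      IsSol p ε u g → Integrable (fun x => |u x| ^ p) (volume : Measure (E N)) →
      ∀ z : Fin N → ℤ, ∃ (v : E N → ℝ) (h : E N → E N), InH1 v h ∧
        (∀ x, |v x| ≤ |u x|) ∧ (∀ x ∈ Metric.closedBall (pt z : E N) (δ / 2), v x = u x) ∧
        (∀ x, x ∉ Metric.ball (pt z : E N) δ → v x = 0) ∧
        ∫ x, dens v h x ≤ C2 * ∫ x in Metric.ball (pt z) δ, dens u g x ∧
        ∫ x, dens v h x ≤ (∫ x in Metric.ball (pt z) δ, dens u g x) + C3 := by
  obtain ⟨χ, K, hK0, χC, χ01, χ1, χ0, χK, χg0, χg1⟩ := cutoff N δ hδ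
  obtain ⟨C, hC, H⟩ := ko N p hp
  refine ⟨2 * K ^ 2 + 2, (2 * K ^ 2 + 2) * (C * δ ^ ((N : ℝ) - 2 * p / (p - 2))), by nlinarith,
    by positivity, ?_⟩
  intro ε hε hεδ u g hu hup z
  have hko := H ε δ hε hεδ hδ1.le u g hu hup z
  set y : E N := pt z with hy
  set ζ : E N → ℝ := fun x => χ (x - y) with hζ
  have ζC : ContDiff ℝ ∞ ζ := by
    have : ContDiff ℝ ∞ fun x : E N => x - y := by fun_prop
    exact χC.comp this
  have ζg : ∀ x, gradient ζ x = gradient χ (x - y) := fun x => grad_shift χ y x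
  have ζK : ∀ x, ‖gradient ζ x‖ ≤ K := fun x => by rw [ζg]; exact χK _
  have ζM : ∀ x, |ζ x| ≤ 1 := fun x => by rw [abs_of_nonneg (χ01 _).1]; exact (χ01 _).2
  have ζ0 : ∀ x, x ∉ Metric.ball y δ → ζ x = 0 := by
    intro x hx
    rw [Metric.mem_ball, not_lt, dist_eq_norm] at hx
    exact χ0 _ hx
  have ζ1 : ∀ x ∈ Metric.closedBall y (δ / 2), ζ x = 1 := by
    intro x hx
    rw [Metric.mem_closedBall, dist_eq_norm] at hx
    exact χ1 _ hx
  have hv := hu.1.mul ζC ζM ζK
  have hd0 : ∀ x, x ∉ Metric.ball y δ →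
      dens (fun x => ζ x * u x) (fun x => ζ x • g x + u x • gradient ζ x) x = 0 := by
    intro x hx
    have h1 := ζ0 x hx
    have h2 : gradient ζ x = 0 := by rw [ζg]; exact χg0 _ h1
    simp only [dens]
    rw [h1, h2]; simp
  have hd1 : ∀ x ∈ Metric.closedBall y (δ / 2),
      dens (fun x => ζ x * u x) (fun x => ζ x • g x + u x • gradient ζ x) x = dens u g x := by
    intro x hx
    have h1 := ζ1 x hx
    have h2 : gradient ζ x = 0 := by rw [ζg]; exact χg1 _ h1
    simp only [dens]
    rw [h1, h2]; simp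
  have hd2 : ∀ x, dens (fun x => ζ x * u x) (fun x => ζ x • g x + u x • gradient ζ x) x ≤
      (2 * K ^ 2 + 2) * dens u g x := by
    intro x
    simp only [dens]
    have h0 := χ01 (x - y)
    have h1 : ‖ζ x • g x + u x • gradient ζ x‖ ≤ ‖g x‖ + K * |u x| := by
      refine (norm_add_le _ _).trans ?_
      rw [norm_smul, norm_smul, Real.norm_eq_abs, Real.norm_eq_abs]
      have h2 := ζM x
      have h3 := ζK x
      have h4 : |ζ x| * ‖g x‖ ≤ 1 * ‖g x‖ := mul_le_mul_of_nonneg_right h2 (norm_nonneg _)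
      have h5 : |u x| * ‖gradient ζ x‖ ≤ |u x| * K := mul_le_mul_of_nonneg_left h3 (abs_nonneg _)
      linarith
    have h2 : ‖ζ x • g x + u x • gradient ζ x‖ ^ 2 ≤ (‖g x‖ + K * |u x|) ^ 2 :=
      pow_le_pow_left₀ (norm_nonneg _) h1 2
    have h3 : (‖g x‖ + K * |u x|) ^ 2 ≤ 2 * ‖g x‖ ^ 2 + 2 * K ^ 2 * u x ^ 2 := by
      have e := sq_abs (u x)
      have : 2 * K ^ 2 * u x ^ 2 = 2 * (K * |u x|) ^ 2 := by rw [← e]; ring
      rw [this]
      nlinarith [sq_nonneg (‖g x‖ - K * |u x|)]
    have h4 : (ζ x * u x) ^ 2 ≤ u x ^ 2 := by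
      rw [mul_pow]
      have : ζ x ^ 2 ≤ 1 := by
        have := ζM x
        rw [← sq_abs]; nlinarith [abs_nonneg (ζ x)]
      nlinarith [sq_nonneg (u x)]
    have h5 : 0 ≤ K ^ 2 * ‖g x‖ ^ 2 := by positivity
    nlinarith [sq_nonneg (u x)]
  have idens := int_dens hu.1
  have idv := int_dens hv
  have mB : MeasurableSet (Metric.ball y δ) := Metric.isOpen_ball.measurableSet
  have mA : MeasurableSet (ann y δ) :=
    Metric.isClosed_closedBall.measurableSet.diff Metric.isOpen_ball.measurableSet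
  refine ⟨_, _, hv, ?_, ?_, ?_, ?_, ?_⟩
  · intro x
    rw [abs_mul]
    have := ζM x
    nlinarith [abs_nonneg (u x)]
  · intro x hx
    rw [ζ1 x hx, one_mul]
  · intro x hx
    rw [ζ0 x hx, zero_mul]
  · rw [← integral_const_mul, ← integral_indicator mB]
    refine integral_mono idv ((idens.const_mul _).indicator mB) fun x => ?_
    by_cases hx : x ∈ Metric.ball y δ
    · simp only [indicator_of_mem hx]
      exact hd2 x
    · simp only [indicator_of_notMem hx]
      exact (hd0 x hx).le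
  · have h1 : ∫ x, dens (fun x => ζ x * u x) (fun x => ζ x • g x + u x • gradient ζ x) x ≤
        (∫ x in Metric.ball y δ, dens u g x) + ∫ x in ann y δ, (2 * K ^ 2 + 2) * dens u g x := by
      rw [← integral_indicator mB, ← integral_indicator mA, ← integral_add (idens.indicator mB)
        ((idens.const_mul _).indicator mA)]
      refine integral_mono idv ((idens.indicator mB).add ((idens.const_mul _).indicator mA))
        fun x => ?_
      have hnn : 0 ≤ dens u g x := dens_nonneg u g x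
      by_cases hx : x ∈ Metric.ball y δ
      · by_cases hx2 : x ∈ Metric.ball y (δ / 2)
        · simp only [indicator_of_mem hx]
          rw [hd1 x (Metric.ball_subset_closedBall hx2)]
          have : 0 ≤ (ann y δ).indicator (fun x => (2 * K ^ 2 + 2) * dens u g x) x :=
            indicator_nonneg (fun x _ => mul_nonneg (by positivity) (dens_nonneg u g x)) x
          linarith
        · have hxa : x ∈ ann y δ := ⟨Metric.ball_subset_closedBall hx, hx2⟩
          simp only [indicator_of_mem hx, indicator_of_mem hxa]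
          have := hd2 x
          linarith
      · rw [hd0 x hx]
        refine add_nonneg (indicator_nonneg (fun x _ => dens_nonneg u g x) x)
          (indicator_nonneg (fun x _ => mul_nonneg (by positivity) (dens_nonneg u g x)) x)
    have h2 : ∫ x in ann y δ, dens u g x ≤ ∫ x in ann y δ, (dens u g x + |u x| ^ p) := by
      refine setIntegral_mono idens.integrableOn (idens.add hup).integrableOn fun x => ?_
      have : 0 ≤ |u x| ^ p := by positivity
      simp only
      linarith
    rw [integral_const_mul] at h1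
    have h3 : (0 : ℝ) ≤ 2 * K ^ 2 + 2 := by positivity
    have h4 := mul_le_mul_of_nonneg_left (h2.trans hko) h3
    linarith

/-- the equation tested with a cutoff away from `z` -/
theorem outside (N : ℕ) (p : ℝ) (hp : 2 < p) (δ : ℝ) (hδ : 0 < δ) (hδ1 : δ < 1 / 2) :
    ∃ C : ℝ, 0 < C ∧ ∀ ε : ℝ, 0 < ε → 4 * ε ≤ δ → ∀ (u : E N → ℝ) (g : E N → E N),
      IsSol p ε u g → Integrable (fun x => |u x| ^ p) (volume : Measure (E N)) →
      ∀ z : Fin N → ℤ, -C ≤ ∫ x in (Metric.ball (pt z : E N) δ)ᶜ, Q ε x * |u x| ^ p := by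
  obtain ⟨χ, K, hK0, χC, χ01, χ1, χ0, χK, χg0, χg1⟩ := cutoff N δ hδ
  obtain ⟨C, hC, H⟩ := ko N p hp
  refine ⟨(K ^ 2 + 1) * (C * δ ^ ((N : ℝ) - 2 * p / (p - 2))), by positivity, ?_⟩
  intro ε hε hεδ u g hu hup z
  have hko := H ε δ hε hεδ hδ1.le u g hu hup z
  set y : E N := pt z with hy
  set ζ : E N → ℝ := fun x => 1 - χ (x - y) with hζ
  have sC : ContDiff ℝ ∞ fun x : E N => χ (x - y) := by
    have : ContDiff ℝ ∞ fun x : E N => x - y := by fun_prop
    exact χC.comp this
  have ζC : ContDiff ℝ ∞ ζ := contDiff_const.sub sC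
  have ζg : ∀ x, gradient ζ x = - gradient χ (x - y) := by
    intro x
    rw [← grad_shift χ y x]
    simp only [gradient, hζ]
    rw [fderiv_const_sub]
    simp
  have ζ01 : ∀ x, 0 ≤ ζ x ∧ ζ x ≤ 1 := by
    intro x
    have := χ01 (x - y)
    simp only [hζ]
    constructor <;> linarith [this.1, this.2]
  have ζK : ∀ x, ‖gradient ζ x‖ ≤ K := fun x => by rw [ζg, norm_neg]; exact χK _
  have ζM : ∀ x, |ζ x| ≤ 1 := fun x => by rw [abs_of_nonneg (ζ01 _).1]; exact (ζ01 _).2
  have ζ1 : ∀ x, x ∉ Metric.ball y δ → ζ x = 1 := by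
    intro x hx
    rw [Metric.mem_ball, not_lt, dist_eq_norm] at hx
    simp only [hζ]
    rw [χ0 _ hx]; norm_num
  have ζ0 : ∀ x ∈ Metric.closedBall y (δ / 2), ζ x = 0 := by
    intro x hx
    rw [Metric.mem_closedBall, dist_eq_norm] at hx
    simp only [hζ]
    rw [χ1 _ hx]; norm_num
  have ζga : ∀ x, x ∉ ann y δ → gradient ζ x = 0 := by
    intro x hx
    rw [ζg]
    by_cases h1 : x ∈ Metric.ball y (δ / 2)
    · have h2 : x ∈ Metric.closedBall y (δ / 2) := Metric.ball_subset_closedBall h1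
      rw [Metric.mem_closedBall, dist_eq_norm] at h2
      rw [χg1 _ (χ1 _ h2), neg_zero]
    · have h2 : x ∉ Metric.closedBall y δ := fun h3 => hx ⟨h3, h1⟩
      rw [Metric.mem_closedBall, not_le, dist_eq_norm] at h2
      rw [χg0 _ (χ0 _ h2.le), neg_zero]
  -- the square
  set om : E N → ℝ := fun x => ζ x * ζ x with hom
  have omC : ContDiff ℝ ∞ om := ζC.mul ζC
  have om01 : ∀ x, 0 ≤ om x ∧ om x ≤ 1 := by
    intro x
    have := ζ01 x
    simp only [hom]
    constructor
    · exact mul_self_nonneg _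
    · nlinarith [this.1, this.2]
  have omg : ∀ x, gradient om x = (2 * ζ x) • gradient ζ x := by
    intro x
    have := grad_mul (ζC.of_le (by norm_cast)) (ζC.of_le (by norm_cast)) (φ := ζ) (ψ := ζ)
    have h2 := congrFun this x
    rw [hom]
    rw [h2, two_mul, add_smul]
  have omK : ∀ x, ‖gradient om x‖ ≤ 2 * K := by
    intro x
    rw [omg, norm_smul, Real.norm_eq_abs, abs_of_nonneg (by linarith [(ζ01 x).1])]
    have h1 := (ζ01 x).1
    have h2 := (ζ01 x).2
    have h3 := ζK x
    have h4 : 0 ≤ ‖gradient ζ x‖ := norm_nonneg _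
    nlinarith
  have hT := hu.test hp omC (M := 1) (fun x => by
    rw [abs_of_nonneg (om01 x).1]; exact (om01 x).2) omK
  have mA : MeasurableSet (ann y δ) :=
    Metric.isClosed_closedBall.measurableSet.diff Metric.isOpen_ball.measurableSet
  have mB : MeasurableSet (Metric.ball y δ) := Metric.isOpen_ball.measurableSet
  have idens := int_dens hu.1
  have i1 : Integrable (fun x => om x * ‖g x‖ ^ 2) (volume : Measure (E N)) := by
    refine (hu.1.2.1.integrable_norm_pow (by norm_num)).bdd_mul (c := 1)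
      omC.continuous.aestronglyMeasurable (Eventually.of_forall fun x => ?_)
    rw [Real.norm_eq_abs, abs_of_nonneg (om01 x).1]; exact (om01 x).2
  have i2 : Integrable (fun x => om x * u x ^ 2) (volume : Measure (E N)) := by
    refine hu.1.1.integrable_sq.bdd_mul (c := 1)
      omC.continuous.aestronglyMeasurable (Eventually.of_forall fun x => ?_)
    rw [Real.norm_eq_abs, abs_of_nonneg (om01 x).1]; exact (om01 x).2
  have i3 : Integrable (fun x => om x * |u x| ^ p) (volume : Measure (E N)) := by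
    refine hup.bdd_mul (c := 1)
      omC.continuous.aestronglyMeasurable (Eventually.of_forall fun x => ?_)
    rw [Real.norm_eq_abs, abs_of_nonneg (om01 x).1]; exact (om01 x).2
  have hin : ∀ x, |u x * inner ℝ (g x) (gradient om x)| ≤ om x * ‖g x‖ ^ 2 +
      (ann y δ).indicator (fun x => K ^ 2 * dens u g x) x := by
    intro x
    by_cases hx : x ∈ ann y δ
    · rw [indicator_of_mem hx, abs_mul]
      have h1 : |inner ℝ (g x) (gradient om x)| ≤ ‖g x‖ * (2 * ζ x * K) := by
        refine (abs_real_inner_le_norm _ _).trans (mul_le_mul_of_nonneg_left ?_ (norm_nonneg _))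
        rw [omg, norm_smul, Real.norm_eq_abs, abs_of_nonneg (by linarith [(ζ01 x).1])]
        exact mul_le_mul_of_nonneg_left (ζK x) (by linarith [(ζ01 x).1])
      have h2 : |u x| * |inner ℝ (g x) (gradient om x)| ≤ |u x| * (‖g x‖ * (2 * ζ x * K)) :=
        mul_le_mul_of_nonneg_left h1 (abs_nonneg _)
      have e : om x = ζ x ^ 2 := by simp only [hom]; ring
      have h3 : |u x| * (‖g x‖ * (2 * ζ x * K)) ≤ ζ x ^ 2 * ‖g x‖ ^ 2 + K ^ 2 * u x ^ 2 := by
        have e2 := sq_abs (u x)
        rw [← e2]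
        nlinarith [sq_nonneg (ζ x * ‖g x‖ - K * |u x|)]
      have h4 : K ^ 2 * u x ^ 2 ≤ K ^ 2 * dens u g x := by
        refine mul_le_mul_of_nonneg_left ?_ (sq_nonneg K)
        simp only [dens]
        nlinarith [sq_nonneg ‖g x‖]
      rw [e]
      linarith
    · rw [indicator_of_notMem hx, omg, ζga x hx]
      simp only [smul_zero, inner_zero_right, mul_zero, abs_zero, add_zero]
      exact mul_nonneg (om01 x).1 (sq_nonneg _)
  have iA : Integrable ((ann y δ).indicator fun x => K ^ 2 * dens u g x)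
      (volume : Measure (E N)) := (idens.const_mul _).indicator mA
  have i4 : Integrable (fun x => u x * inner ℝ (g x) (gradient om x))
      (volume : Measure (E N)) := by
    refine (i1.add iA).mono' ?_ (Eventually.of_forall fun x => ?_)
    · exact hu.1.1.1.mul (hu.1.2.1.1.inner
        (grad_cont (omC.of_le (by norm_cast))).aestronglyMeasurable)
    · rw [Real.norm_eq_abs]; exact hin x
  have hlow : -(∫ x in ann y δ, K ^ 2 * dens u g x) ≤
      ∫ x, (om x * ‖g x‖ ^ 2 + u x * inner ℝ (g x) (gradient om x) + om x * u x ^ 2) := by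
    rw [← integral_indicator mA, ← integral_neg]
    refine integral_mono iA.neg ((i1.add i4).add i2) fun x => ?_
    have h1 := hin x
    have h2 := neg_abs_le (u x * inner ℝ (g x) (gradient om x))
    have h3 : 0 ≤ om x * u x ^ 2 := mul_nonneg (om01 x).1 (sq_nonneg _)
    simp only
    linarith
  have hup2 : ∫ x, Q ε x * (om x * |u x| ^ p) ≤ ∫ x in (Metric.ball y δ)ᶜ, Q ε x * |u x| ^ p := by
    rw [← integral_indicator mB.compl]
    refine integral_mono (Q_int ε i3) ((Q_int ε hup).indicator mB.compl) fun x => ?_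
    by_cases hx : x ∈ Metric.ball y δ
    · have hx' : x ∉ (Metric.ball y δ)ᶜ := fun h => h hx
      rw [indicator_of_notMem hx']
      by_cases hx2 : x ∈ Metric.closedBall y (δ / 2)
      · simp only [hom]
        rw [ζ0 x hx2]; simp
      · have hxc : x ∉ core N ε := by
          intro hc
          have h1 := core_near (by linarith) hx hc
          apply hx2
          rw [Metric.mem_ball] at h1
          rw [Metric.mem_closedBall]
          linarith
        simp only
        rw [Q_of_notMem hxc]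
        have : 0 ≤ om x * |u x| ^ p := mul_nonneg (om01 x).1 (by positivity)
        linarith
    · have hx' : x ∈ (Metric.ball y δ)ᶜ := hx
      rw [indicator_of_mem hx']
      simp only [hom]
      rw [ζ1 x hx]; simp
  have h2 : ∫ x in ann y δ, dens u g x ≤ ∫ x in ann y δ, (dens u g x + |u x| ^ p) := by
    refine setIntegral_mono idens.integrableOn (idens.add hup).integrableOn fun x => ?_
    have : 0 ≤ |u x| ^ p := by positivity
    simp only
    linarith
  rw [integral_const_mul] at hlow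
  have h3 : K ^ 2 * ∫ x in ann y δ, dens u g x ≤
      K ^ 2 * (C * δ ^ ((N : ℝ) - 2 * p / (p - 2))) :=
    mul_le_mul_of_nonneg_left (h2.trans hko) (sq_nonneg K)
  have h4 : 0 ≤ C * δ ^ ((N : ℝ) - 2 * p / (p - 2)) := by positivity
  rw [hT] at hlow
  nlinarith

end Pool.Agent.Q62.PC
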