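import Pool.Agent.Q62.PC.Cells

/-! Concentration in one cell. -/

open MeasureTheory Set Filter Topology
open scoped ENNReal NNReal ContDiff

namespace Pool.Agent.Q62.PC

theorem scal {q C2 C3 θ t A a b : ℝ} (hq : 0 < q) (hC2 : 0 ≤ C2) (hC3 : 0 ≤ C3) (hθ : 0 < θ)
    (ht : 0 ≤ t) (hA : 0 < A) (ha : 0 ≤ a) (hb : 0 ≤ b) (h1 : a ≤ C2 * b) (h2 : a ≤ b + C3)
    (h3 : a ≤ t * A) :
    a ^ (1 + q) ≤ (C2 * θ ^ q + t ^ q * (1 + C2 * C3 / (θ * A))) * (A ^ q * b) := by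
  have e : a ^ (1 + q) = a * a ^ q := by
    rcases ha.eq_or_lt with h0 | h0
    · rw [← h0, Real.zero_rpow (by linarith), zero_mul]
    · rw [Real.rpow_add h0, Real.rpow_one]
  have hAq : 0 ≤ A ^ q := Real.rpow_nonneg hA.le _
  have hθq : 0 ≤ θ ^ q := Real.rpow_nonneg hθ.le _
  have htq : 0 ≤ t ^ q := Real.rpow_nonneg ht _
  have haq : 0 ≤ a ^ q := Real.rpow_nonneg ha _
  rw [e]
  rcases le_or_gt a (θ * A) with h | h
  · have h4 : a ^ q ≤ θ ^ q * A ^ q := by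
      rw [← Real.mul_rpow hθ.le hA.le]
      exact Real.rpow_le_rpow ha h hq.le
    have h5 : a * a ^ q ≤ (C2 * b) * (θ ^ q * A ^ q) := by
      calc a * a ^ q ≤ (C2 * b) * a ^ q := mul_le_mul_of_nonneg_right h1 haq
        _ ≤ _ := mul_le_mul_of_nonneg_left h4 (by positivity)
    have h6 : 0 ≤ t ^ q * (1 + C2 * C3 / (θ * A)) * (A ^ q * b) := by positivity
    nlinarith
  · have h4 : a ^ q ≤ t ^ q * A ^ q := by
      rw [← Real.mul_rpow ht hA.le]
      exact Real.rpow_le_rpow ha h3 hq.le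
    have hθA : 0 < θ * A := by positivity
    have h5 : a ≤ b * (1 + C2 * C3 / (θ * A)) := by
      have h6 : 1 ≤ C2 * b / (θ * A) := by
        rw [le_div_iff₀ hθA]; linarith
      have h7 : C3 ≤ C3 * (C2 * b / (θ * A)) := by nlinarith
      have h8 : C3 * (C2 * b / (θ * A)) = b * (C2 * C3 / (θ * A)) := by ring
      linarith
    have h6 : a * a ^ q ≤ (b * (1 + C2 * C3 / (θ * A))) * (t ^ q * A ^ q) := by
      calc a * a ^ q ≤ (b * (1 + C2 * C3 / (θ * A))) * a ^ q := mul_le_mul_of_nonneg_right h5 haq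
        _ ≤ _ := mul_le_mul_of_nonneg_left h4 (by positivity)
    have h7 : 0 ≤ C2 * θ ^ q * (A ^ q * b) := by positivity
    nlinarith

theorem abs_rpow_le {p a b : ℝ} (hp : 0 < p) (h : |a| ≤ |b|) : |a| ^ p ≤ |b| ^ p :=
  Real.rpow_le_rpow (abs_nonneg _) h hp.le

/-- the integral over the union of the cells -/
theorem ge_int {N : ℕ} {p ε δ : ℝ} (hεδ : ε ≤ δ) {u : E N → ℝ}
    (hup : Integrable (fun x => |u x| ^ p) (volume : Measure (E N))) :
    ∫ x, Q ε x * |u x| ^ p ≤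
      ∫ x in ⋃ z : Fin N → ℤ, Metric.ball (pt z : E N) δ, Q ε x * |u x| ^ p := by
  have mU : MeasurableSet (⋃ z : Fin N → ℤ, Metric.ball (pt z : E N) δ) :=
    MeasurableSet.iUnion fun _ => Metric.isOpen_ball.measurableSet
  rw [← integral_indicator mU]
  refine integral_mono (Q_int ε hup) ((Q_int ε hup).indicator mU) fun x => ?_
  by_cases hx : x ∈ ⋃ z : Fin N → ℤ, Metric.ball (pt z : E N) δ
  · rw [indicator_of_mem hx]
  · rw [indicator_of_notMem hx]
    have hxc : x ∉ core N ε := by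
      intro hc
      obtain ⟨w, hw⟩ := mem_iUnion.1 hc
      exact hx (mem_iUnion.2 ⟨w, Metric.ball_subset_ball hεδ hw⟩)
    simp only
    rw [Q_of_notMem hxc]
    have : 0 ≤ |u x| ^ p := by positivity
    linarith

theorem local_ineq {N : ℕ} {p ε δ : ℝ} (hp : 0 < p) (hεδ : 4 * ε ≤ δ) (hε : 0 < ε)
    (hδ : δ ≤ 1 / 2) {z : Fin N → ℤ} {u v : E N → ℝ}
    (hup : Integrable (fun x => |u x| ^ p) (volume : Measure (E N)))
    (hvp : Integrable (fun x => |v x| ^ p) (volume : Measure (E N)))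
    (h1 : ∀ x, |v x| ≤ |u x|) (h2 : ∀ x ∈ Metric.closedBall (pt z : E N) (δ / 2), v x = u x)
    (h3 : ∀ x, x ∉ Metric.ball (pt z : E N) δ → v x = 0) :
    ∫ x in Metric.ball (pt z : E N) δ, Q ε x * |u x| ^ p ≤ ∫ x, Q ε x * |v x| ^ p := by
  have mB : MeasurableSet (Metric.ball (pt z : E N) δ) := Metric.isOpen_ball.measurableSet
  rw [← integral_indicator mB]
  refine integral_mono ((Q_int ε hup).indicator mB) (Q_int ε hvp) fun x => ?_
  by_cases hx : x ∈ Metric.ball (pt z : E N) δ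
  · rw [indicator_of_mem hx]
    by_cases hc : x ∈ core N ε
    · have hx2 := core_near (by linarith) hx hc
      have hx3 : x ∈ Metric.closedBall (pt z : E N) (δ / 2) := by
        rw [Metric.mem_ball] at hx2
        rw [Metric.mem_closedBall]; linarith
      simp only
      rw [h2 x hx3]
    · simp only
      rw [Q_of_notMem hc]
      have := abs_rpow_le hp (h1 x)
      linarith
  · rw [indicator_of_notMem hx]
    simp only
    rw [h3 x hx, abs_zero, Real.zero_rpow hp.ne', mul_zero]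

theorem Q_split {N : ℕ} {p ε δ : ℝ} (hp : 0 < p) (hεδ : 4 * ε ≤ δ) (hε : 0 < ε)
    (hδ : δ ≤ 1 / 2) {z : Fin N → ℤ} {v : E N → ℝ}
    (hvp : Integrable (fun x => |v x| ^ p) (volume : Measure (E N)))
    (h3 : ∀ x, x ∉ Metric.ball (pt z : E N) δ → v x = 0) :
    ∫ x, Q ε x * |v x| ^ p = (∫ x in Metric.ball (pt z : E N) ε, |v x| ^ p) -
      ∫ x in (Metric.ball (pt z : E N) ε)ᶜ, |v x| ^ p := by
  have mB : MeasurableSet (Metric.ball (pt z : E N) ε) := Metric.isOpen_ball.measurableSet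
  rw [← integral_add_compl mB (Q_int ε hvp)]
  have e1 : ∫ x in Metric.ball (pt z : E N) ε, Q ε x * |v x| ^ p =
      ∫ x in Metric.ball (pt z : E N) ε, |v x| ^ p := by
    refine setIntegral_congr_fun mB fun x hx => ?_
    rw [Q_of_mem (ball_sub_core ε z hx), one_mul]
  have e2 : ∫ x in (Metric.ball (pt z : E N) ε)ᶜ, Q ε x * |v x| ^ p =
      -∫ x in (Metric.ball (pt z : E N) ε)ᶜ, |v x| ^ p := by
    rw [← integral_neg]
    refine setIntegral_congr_fun mB.compl fun x hx => ?_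
    by_cases hx2 : x ∈ Metric.ball (pt z : E N) δ
    · have hc : x ∉ core N ε := fun hc => hx (core_near (by linarith) hx2 hc)
      rw [Q_of_notMem hc]; ring
    · rw [h3 x hx2, abs_zero, Real.zero_rpow hp.ne']; simp
  rw [e1, e2]; ring

theorem rpow_split' {q a : ℝ} (hq : 0 < q) (ha : 0 ≤ a) : a ^ (1 + q) = a * a ^ q := by
  rcases ha.eq_or_lt with h0 | h0
  · rw [← h0, Real.zero_rpow (by linarith), zero_mul]
  · rw [Real.rpow_add h0, Real.rpow_one]

theorem int_grad_le {N : ℕ} {v : E N → ℝ} {h : E N → E N} (hv : InH1 v h) :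
    ∫ x, ‖h x‖ ^ 2 ≤ ∫ x, dens v h x := by
  refine integral_mono (hv.2.1.integrable_norm_pow (by norm_num)) (int_dens hv) fun x => ?_
  simp only [dens]
  nlinarith [sq_nonneg (v x)]

theorem set_dens_le {N : ℕ} {u : E N → ℝ} {g : E N → E N} (hu : InH1 u g) (S : Set (E N)) :
    ∫ x in S, dens u g x ≤ ∫ x, dens u g x :=
  setIntegral_le_integral (int_dens hu) (Eventually.of_forall fun x => dens_nonneg u g x)

theorem set_dens_nonneg {N : ℕ} (u : E N → ℝ) (g : E N → E N) (S : Set (E N)) :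
    0 ≤ ∫ x in S, dens u g x := integral_nonneg fun x => dens_nonneg u g x

/-- concentration of the energy in a cell -/
theorem conc1 (N : ℕ) (hN : 2 ≤ N) (p : ℝ) (hp : 2 < p) (hp2 : p * ((N : ℝ) - 2) < 2 * N)
    (δ : ℝ) (hδ : 0 < δ) (hδ1 : δ < 1 / 2) (η : ℝ) (hη : 0 < η) (hη1 : η < 1) :
    ∃ E0 : ℝ, ∀ ε : ℝ, 0 < ε → 4 * ε ≤ δ → ∀ (u : E N → ℝ) (g : E N → E N), IsLeast p ε u g →
      E0 ≤ ∫ x, dens u g x → ∃ z : Fin N → ℤ,
        (1 - η) * (∫ x, dens u g x) ≤ ∫ x in Metric.ball (pt z) δ, dens u g x := by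
  obtain ⟨C2, C3, hC2, hC3, H⟩ := cell N p hp δ hδ hδ1
  obtain ⟨C0, hC0, HG⟩ := gn N hN p hp hp2
  set q : ℝ := (p - 2) / 2 with hq
  have hq0 : 0 < q := by rw [hq]; linarith
  have hpq : p / 2 = 1 + q := by rw [hq]; ring
  set t : ℝ := 1 - η / 2 with ht
  have ht0 : 0 < t := by rw [ht]; linarith
  have ht1 : t < 1 := by rw [ht]; linarith
  have htq : t ^ q < 1 := Real.rpow_lt_one ht0.le ht1 hq0
  have htq0 : 0 < t ^ q := Real.rpow_pos_of_pos ht0 _
  set κ : ℝ := 1 - t ^ q with hκ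
  have hκ0 : 0 < κ := by rw [hκ]; linarith
  set θ : ℝ := (κ / (4 * C2)) ^ (1 / q) with hθ
  have hθ0 : 0 < θ := Real.rpow_pos_of_pos (by positivity) _
  have hθq : C2 * θ ^ q = κ / 4 := by
    rw [hθ, ← Real.rpow_mul (by positivity), one_div, inv_mul_cancel₀ hq0.ne', Real.rpow_one]
    field_simp
  refine ⟨4 * (C2 * C3) / (θ * κ) + 2 * C3 / η + 1, ?_⟩
  intro ε hε hεδ u g hu hbig
  have hup := (HG u g hu.1.1).1
  by_contra hcon
  push Not at hcon
  set A : ℝ := ∫ x, dens u g x with hA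
  have hA0 : 0 < A := lt_of_lt_of_le (by positivity) hbig
  have hbig1 : 4 * (C2 * C3) / (θ * κ) ≤ A := by
    have : 0 ≤ 2 * C3 / η := by positivity
    linarith
  have hbig2 : 2 * C3 / η ≤ A := by
    have : 0 ≤ 4 * (C2 * C3) / (θ * κ) := by positivity
    linarith
  have hbig3 : C3 ≤ η / 2 * A := by
    rw [div_le_iff₀ hη] at hbig2; linarith
  have hbig4 : C2 * C3 / (θ * A) ≤ κ / 4 := by
    rw [div_le_iff₀ (by positivity)] at hbig1 ⊢
    nlinarith
  set c : ℝ := C2 * θ ^ q + t ^ q * (1 + C2 * C3 / (θ * A)) with hc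
  have hc1 : c < 1 := by
    have h1 : t ^ q * (1 + C2 * C3 / (θ * A)) ≤ t ^ q * (1 + κ / 4) :=
      mul_le_mul_of_nonneg_left (by linarith) htq0.le
    have h2 : t ^ q = 1 - κ := by rw [hκ]; ring
    rw [hc, hθq]
    nlinarith
  have hAq : 0 < A ^ q := Real.rpow_pos_of_pos hA0 _
  have hz : ∀ z : Fin N → ℤ, ∫ x in Metric.ball (pt z : E N) δ, Q ε x * |u x| ^ p ≤
      c * ∫ x in Metric.ball (pt z : E N) δ, dens u g x := by
    intro z
    obtain ⟨v, h, hv, v1, v2, v3, v4, v5⟩ := H ε hε hεδ u g hu.1 hup z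
    have hvp := (HG v h hv).1
    have h1 := local_ineq (by linarith) hεδ hε hδ1.le hup hvp v1 v2 v3
    have h2 := hu.key hp hv
    rw [← hA, ← hq, hpq] at h2
    have h3 := scal hq0 (by linarith : (0 : ℝ) ≤ C2) hC3.le hθ0 ht0.le hA0
      (integral_nonneg (dens_nonneg v h)) (set_dens_nonneg u g _) v4 v5
      (by have := hcon z; nlinarith)
    rw [← hc] at h3
    have h4 : A ^ q * ∫ x in Metric.ball (pt z : E N) δ, Q ε x * |u x| ^ p ≤
        A ^ q * (c * ∫ x in Metric.ball (pt z : E N) δ, dens u g x) := by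
      calc A ^ q * ∫ x in Metric.ball (pt z : E N) δ, Q ε x * |u x| ^ p
          ≤ A ^ q * ∫ x, Q ε x * |v x| ^ p := mul_le_mul_of_nonneg_left h1 hAq.le
        _ ≤ (∫ x, dens v h x) ^ (1 + q) := h2
        _ ≤ c * (A ^ q * ∫ x in Metric.ball (pt z : E N) δ, dens u g x) := h3
        _ = _ := by ring
    exact le_of_mul_le_mul_left h4 hAq
  have hs := sum_le (fun _ => Metric.isOpen_ball.measurableSet) (disj hδ1.le) (Q_int ε hup)
    (int_dens hu.1.1) hz
  have h1 := ge_int (N := N) (by linarith : ε ≤ δ) hup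
  have h2 := set_dens_le hu.1.1 (⋃ z : Fin N → ℤ, Metric.ball (pt z : E N) δ)
  rw [← hu.2.1.2.2, ← hA] at h1
  rw [← hA] at h2
  have hc0 : 0 ≤ c := by positivity
  have h3 := mul_le_mul_of_nonneg_left h2 hc0
  nlinarith

/-- lower bound of the energy -/
theorem lower (N : ℕ) (hN : 2 ≤ N) (p : ℝ) (hp : 2 < p) (hp2 : p * ((N : ℝ) - 2) < 2 * N) :
    ∃ c : ℝ, 0 < c ∧ ∀ ε : ℝ, 0 < ε → 4 * ε ≤ 1 / 4 → ∀ (u : E N → ℝ) (g : E N → E N),
      IsLeast p ε u g → c ≤ ε ^ sg N p * (∫ x, dens u g x) ^ ((p - 2) / 2) := by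
  obtain ⟨C2, C3, hC2, hC3, H⟩ := cell N p hp (1 / 4) (by norm_num) (by norm_num)
  obtain ⟨C0, hC0, HG⟩ := gn N hN p hp hp2
  obtain ⟨C1, hC1, HC⟩ := core_bound N hN p hp hp2 1 (by norm_num)
  set q : ℝ := (p - 2) / 2 with hq
  have hq0 : 0 < q := by rw [hq]; linarith
  have hpq : p / 2 = 1 + q := by rw [hq]; ring
  refine ⟨1 / (C1 * C2 * C2 ^ q), by positivity, ?_⟩
  intro ε hε hεδ u g hu
  have hup := (HG u g hu.1.1).1
  set A : ℝ := ∫ x, dens u g x with hA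
  have hA0 : 0 < A := pos_of_ne hu.1.1 hu.2.1.2.1
  have hz : ∀ z : Fin N → ℤ, ∫ x in Metric.ball (pt z : E N) (1 / 4), Q ε x * |u x| ^ p ≤
      (C1 * ε ^ sg N p * (C2 * (C2 * A) ^ q)) *
        ∫ x in Metric.ball (pt z : E N) (1 / 4), dens u g x := by
    intro z
    obtain ⟨v, h, hv, v1, v2, v3, v4, v5⟩ := H ε hε hεδ u g hu.1 hup z
    have hvp := (HG v h hv).1
    have h1 := local_ineq (by linarith) hεδ hε (by norm_num) hup hvp v1 v2 v3
    have h2 := Q_split (by linarith) hεδ hε (by norm_num) hvp v3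
    have h3 := HC ε hε (pt z) v h hv
    have h4 : (∫ x, ‖h x‖ ^ 2) ^ (p / 2) ≤
        (C2 * (C2 * A) ^ q) * ∫ x in Metric.ball (pt z : E N) (1 / 4), dens u g x := by
      have a0 : 0 ≤ ∫ x, dens v h x := integral_nonneg (dens_nonneg v h)
      have a1 : (∫ x, ‖h x‖ ^ 2) ^ (p / 2) ≤ (∫ x, dens v h x) ^ (p / 2) :=
        Real.rpow_le_rpow (integral_nonneg fun x => sq_nonneg _) (int_grad_le hv) (by linarith)
      have a2 : ∫ x, dens v h x ≤ C2 * A :=
        v4.trans (mul_le_mul_of_nonneg_left (set_dens_le hu.1.1 _) (by linarith))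
      have a3 : (∫ x, dens v h x) ^ q ≤ (C2 * A) ^ q := Real.rpow_le_rpow a0 a2 hq0.le
      have a4 : 0 ≤ (C2 * A) ^ q := by positivity
      rw [hpq, rpow_split' hq0 a0] at a1
      rw [hpq]
      refine a1.trans ?_
      calc (∫ x, dens v h x) * (∫ x, dens v h x) ^ q ≤ (∫ x, dens v h x) * (C2 * A) ^ q :=
            mul_le_mul_of_nonneg_left a3 a0
        _ ≤ (C2 * ∫ x in Metric.ball (pt z : E N) (1 / 4), dens u g x) * (C2 * A) ^ q :=
            mul_le_mul_of_nonneg_right v4 a4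
        _ = _ := by ring
    have h5 : 0 ≤ C1 * ε ^ sg N p := by positivity
    have h6 := mul_le_mul_of_nonneg_left h4 h5
    rw [one_mul] at h3
    rw [h2] at h1
    nlinarith
  have hs := sum_le (fun _ => Metric.isOpen_ball.measurableSet) (disj (by norm_num))
    (Q_int ε hup) (int_dens hu.1.1) hz
  have h1 := ge_int (N := N) (δ := 1 / 4) (by linarith : ε ≤ 1 / 4) hup
  have h2 := set_dens_le hu.1.1 (⋃ z : Fin N → ℤ, Metric.ball (pt z : E N) (1 / 4))
  rw [← hu.2.1.2.2, ← hA] at h1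
  rw [← hA] at h2
  have hc0 : 0 ≤ C1 * ε ^ sg N p * (C2 * (C2 * A) ^ q) := by positivity
  have h3 := mul_le_mul_of_nonneg_left h2 hc0
  have h4 : 1 * A ≤ (C1 * ε ^ sg N p * (C2 * (C2 * A) ^ q)) * A := by linarith
  have h5 := le_of_mul_le_mul_right h4 hA0
  rw [Real.mul_rpow (by linarith) hA0.le] at h5
  rw [div_le_iff₀ (by positivity)]
  calc (1 : ℝ) ≤ C1 * ε ^ sg N p * (C2 * (C2 ^ q * A ^ q)) := h5
    _ = _ := by ring

end Pool.Agent.Q62.PC
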