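import Pool.Agent.Q62.PC.Conc

/-! Concentration of the `L^p` mass. -/

open MeasureTheory Set Filter Topology
open scoped ENNReal NNReal ContDiff

namespace Pool.Agent.Q62.PC

theorem conc2 (N : ℕ) (hN : 2 ≤ N) (p : ℝ) (hp : 2 < p) (hp2 : p * ((N : ℝ) - 2) < 2 * N)
    (δ : ℝ) (hδ : 0 < δ) (hδ1 : δ < 1 / 2) :
    ∃ C : ℝ, 0 < C ∧ ∀ ε : ℝ, 0 < ε → 4 * ε ≤ δ → ∀ (u : E N → ℝ) (g : E N → E N),
      IsLeast p ε u g → ∀ z0 : Fin N → ℤ, ∀ η : ℝ, 0 ≤ η → η ≤ 1 →
        (1 - η) * (∫ x, dens u g x) ≤ ∫ x in Metric.ball (pt z0) δ, dens u g x →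
        ∫ x in (Metric.ball (pt z0 : E N) δ)ᶜ, |u x| ^ p ≤ C + C * η * ∫ x, dens u g x := by
  obtain ⟨C2, C3, hC2, hC3, H⟩ := cell N p hp δ hδ hδ1
  obtain ⟨C4, hC4, HO⟩ := outside N p hp δ hδ hδ1
  obtain ⟨C0, hC0, HG⟩ := gn N hN p hp hp2
  obtain ⟨C5, hC5, HC⟩ := core_bound N hN p hp hp2 (1 / 2) (by norm_num)
  obtain ⟨Cu, hCu, HU⟩ := upper N p hp
  set q : ℝ := (p - 2) / 2 with hq
  have hq0 : 0 < q := by rw [hq]; linarith
  have hpq : p / 2 = 1 + q := by rw [hq]; ring
  refine ⟨3 * C4 + 4 * (C5 * (C2 * C2 ^ q) * Cu), by positivity, ?_⟩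
  intro ε hε hεδ u g hu z0 η hη0 hη1 hz0
  have hup := (HG u g hu.1.1).1
  have hcu := HU ε hε (by linarith) u g hu
  have ho := HO ε hε hεδ u g hu.1 hup z0
  set A : ℝ := ∫ x, dens u g x with hA
  have hA0 : 0 < A := pos_of_ne hu.1.1 hu.2.1.2.1
  have mB : ∀ z : Fin N → ℤ, MeasurableSet (Metric.ball (pt z : E N) δ) :=
    fun _ => Metric.isOpen_ball.measurableSet
  have mC := core_meas N ε
  set W : Set (E N) := (Metric.ball (pt z0 : E N) δ)ᶜ with hW
  have mW : MeasurableSet W := (mB z0).compl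
  set U : Set (E N) := ⋃ z : {z : Fin N → ℤ // z ≠ z0}, Metric.ball (pt z.1 : E N) δ with hU
  have mU : MeasurableSet U := MeasurableSet.iUnion fun _ => Metric.isOpen_ball.measurableSet
  have hdisj : ∀ z : Fin N → ℤ, z ≠ z0 → Metric.ball (pt z : E N) δ ⊆ W := by
    intro z hz x hx
    exact (disj (N := N) hδ1.le hz).subset_compl_right hx
  have hUW : U ⊆ W := iUnion_subset fun z => hdisj z.1 z.2
  set fX : E N → ℝ := (core N ε).indicator fun x => |u x| ^ p with hfX
  set fY : E N → ℝ := (core N ε)ᶜ.indicator fun x => |u x| ^ p with hfY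
  have iX : Integrable fX (volume : Measure (E N)) := hup.indicator mC
  have iY : Integrable fY (volume : Measure (E N)) := hup.indicator mC.compl
  have hfY0 : ∀ x, 0 ≤ fY x := fun x => indicator_nonneg (fun x _ => by positivity) x
  have hXY : ∀ x, |u x| ^ p = fX x + fY x := by
    intro x
    by_cases hx : x ∈ core N ε
    · rw [hfX, hfY, indicator_of_mem hx,
        indicator_of_notMem (show x ∉ (core N ε)ᶜ from fun h => h hx), add_zero]
    · rw [hfX, hfY, indicator_of_notMem hx, indicator_of_mem (show x ∈ (core N ε)ᶜ from hx),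
        zero_add]
  have hQXY : ∀ x, Q ε x * |u x| ^ p = fX x - fY x := by
    intro x
    by_cases hx : x ∈ core N ε
    · rw [hfX, hfY, indicator_of_mem hx,
        indicator_of_notMem (show x ∉ (core N ε)ᶜ from fun h => h hx), sub_zero, Q_of_mem hx, one_mul]
    · rw [hfX, hfY, indicator_of_notMem hx, indicator_of_mem (show x ∈ (core N ε)ᶜ from hx),
        Q_of_notMem hx]
      ring
  have hout : ∫ x in W, dens u g x ≤ η * A := by
    have h1 := integral_add_compl (mB z0) (int_dens hu.1.1)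
    rw [← hW, ← hA] at h1
    linarith
  have hbz : ∀ z : Fin N → ℤ, z ≠ z0 → ∫ x in Metric.ball (pt z : E N) δ, dens u g x ≤ η * A := by
    intro z hz
    refine le_trans (setIntegral_mono_set (int_dens hu.1.1).integrableOn
      (Eventually.of_forall fun x => dens_nonneg u g x) (hdisj z hz).eventuallyLE) hout
  set c : ℝ := C5 * ε ^ sg N p * (C2 * (C2 * (η * A)) ^ q) with hc
  have hηA : 0 ≤ η * A := by positivity
  have hc0 : 0 ≤ c := by positivity
  have hz : ∀ z : {z : Fin N → ℤ // z ≠ z0},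
      ∫ x in Metric.ball (pt z.1 : E N) δ, (fX x - 1 / 2 * fY x) ≤
        c * ∫ x in Metric.ball (pt z.1 : E N) δ, dens u g x := by
    rintro ⟨z, hzz⟩
    simp only
    obtain ⟨v, h, hv, v1, v2, v3, v4, v5⟩ := H ε hε hεδ u g hu.1 hup z
    have hvp := (HG v h hv).1
    have h3 := HC ε hε (pt z) v h hv
    have mb : MeasurableSet (Metric.ball (pt z : E N) ε) := Metric.isOpen_ball.measurableSet
    have e1 : ∫ x in Metric.ball (pt z : E N) δ, fX x =
        ∫ x in Metric.ball (pt z : E N) ε, |v x| ^ p := by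
      have hsub : Metric.ball (pt z : E N) ε ⊆ Metric.ball (pt z : E N) δ :=
        Metric.ball_subset_ball (by linarith)
      rw [setIntegral_eq_of_subset_of_forall_sdiff_eq_zero (mB z) hsub]
      · refine setIntegral_congr_fun mb fun x hx => ?_
        have hx3 : x ∈ Metric.closedBall (pt z : E N) (δ / 2) := by
          rw [Metric.mem_ball] at hx
          rw [Metric.mem_closedBall]; linarith
        simp only [hfX]
        rw [indicator_of_mem (ball_sub_core ε z hx), v2 x hx3]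
      · intro x hx
        have hxc : x ∉ core N ε := fun hc => hx.2 (core_near (by linarith) hx.1 hc)
        rw [hfX, indicator_of_notMem hxc]
    have e2 : ∫ x in (Metric.ball (pt z : E N) ε)ᶜ, |v x| ^ p ≤
        ∫ x in Metric.ball (pt z : E N) δ, fY x := by
      rw [← integral_indicator mb.compl, ← integral_indicator (mB z)]
      refine integral_mono (hvp.indicator mb.compl) (iY.indicator (mB z)) fun x => ?_
      by_cases hx : x ∈ Metric.ball (pt z : E N) δ
      · rw [indicator_of_mem hx]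
        by_cases hx2 : x ∈ (Metric.ball (pt z : E N) ε)ᶜ
        · rw [indicator_of_mem hx2]
          have hxc : x ∈ (core N ε)ᶜ := fun hc => hx2 (core_near (by linarith) hx hc)
          rw [hfY, indicator_of_mem hxc]
          exact abs_rpow_le (by linarith) (v1 x)
        · rw [indicator_of_notMem hx2]
          exact hfY0 x
      · rw [indicator_of_notMem hx]
        have : |v x| ^ p = 0 := by rw [v3 x hx, abs_zero, Real.zero_rpow (by linarith)]
        by_cases hx2 : x ∈ (Metric.ball (pt z : E N) ε)ᶜ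
        · rw [indicator_of_mem hx2, this]
        · rw [indicator_of_notMem hx2]
    have h4 : (∫ x, ‖h x‖ ^ 2) ^ (p / 2) ≤
        (C2 * (C2 * (η * A)) ^ q) * ∫ x in Metric.ball (pt z : E N) δ, dens u g x := by
      have a0 : 0 ≤ ∫ x, dens v h x := integral_nonneg (dens_nonneg v h)
      have a1 : (∫ x, ‖h x‖ ^ 2) ^ (p / 2) ≤ (∫ x, dens v h x) ^ (p / 2) :=
        Real.rpow_le_rpow (integral_nonneg fun x => sq_nonneg _) (int_grad_le hv) (by linarith)
      have a2 : ∫ x, dens v h x ≤ C2 * (η * A) :=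
        v4.trans (mul_le_mul_of_nonneg_left (hbz z hzz) (by linarith))
      have a3 : (∫ x, dens v h x) ^ q ≤ (C2 * (η * A)) ^ q := Real.rpow_le_rpow a0 a2 hq0.le
      have a4 : 0 ≤ (C2 * (η * A)) ^ q := by positivity
      rw [hpq, rpow_split' hq0 a0] at a1
      rw [hpq]
      refine a1.trans ?_
      calc (∫ x, dens v h x) * (∫ x, dens v h x) ^ q ≤
            (∫ x, dens v h x) * (C2 * (η * A)) ^ q := mul_le_mul_of_nonneg_left a3 a0
        _ ≤ (C2 * ∫ x in Metric.ball (pt z : E N) δ, dens u g x) * (C2 * (η * A)) ^ q :=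
            mul_le_mul_of_nonneg_right v4 a4
        _ = _ := by ring
    have h5 : 0 ≤ C5 * ε ^ sg N p := by positivity
    have h6 := mul_le_mul_of_nonneg_left h4 h5
    rw [integral_sub iX.integrableOn (iY.const_mul _).integrableOn, integral_const_mul, e1]
    rw [hc]
    nlinarith
  have hs := sum_le (B := fun z : {z : Fin N → ℤ // z ≠ z0} => Metric.ball (pt z.1 : E N) δ)
    (fun _ => Metric.isOpen_ball.measurableSet)
    (fun z w hzw => disj (N := N) hδ1.le fun e => hzw (Subtype.ext e))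
    (iX.sub (iY.const_mul _)) (int_dens hu.1.1) hz
  have hXU : ∫ x in W, fX x = ∫ x in U, fX x := by
    refine setIntegral_eq_of_subset_of_forall_sdiff_eq_zero mW hUW ?_
    intro x hx
    have hxc : x ∉ core N ε := by
      intro hxc
      obtain ⟨w, hw⟩ := mem_iUnion.1 hxc
      have hwδ : x ∈ Metric.ball (pt w : E N) δ := Metric.ball_subset_ball (by linarith) hw
      rcases eq_or_ne w z0 with e | e
      · rw [e] at hwδ
        exact hx.1 hwδ
      · exact hx.2 (mem_iUnion.2 ⟨⟨w, e⟩, hwδ⟩)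
    rw [hfX, indicator_of_notMem hxc]
  have hYU : ∫ x in U, fY x ≤ ∫ x in W, fY x :=
    setIntegral_mono_set iY.integrableOn (Eventually.of_forall fun x => hfY0 x)
      hUW.eventuallyLE
  have hDU : ∫ x in U, dens u g x ≤ η * A :=
    (setIntegral_mono_set (int_dens hu.1.1).integrableOn
      (Eventually.of_forall fun x => dens_nonneg u g x) hUW.eventuallyLE).trans hout
  have e3 : ∫ x in U, (fX x - 1 / 2 * fY x) = (∫ x in U, fX x) - 1 / 2 * ∫ x in U, fY x := by
    rw [integral_sub iX.integrableOn (iY.const_mul _).integrableOn, integral_const_mul]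
  have e4 : ∫ x in W, Q ε x * |u x| ^ p = (∫ x in W, fX x) - ∫ x in W, fY x := by
    simp only [hQXY]
    rw [integral_sub iX.integrableOn iY.integrableOn]
  have e5 : ∫ x in W, |u x| ^ p = (∫ x in W, fX x) + ∫ x in W, fY x := by
    simp only [hXY]
    rw [integral_add iX.integrableOn iY.integrableOn]
  have hs' : (∫ x in U, fX x) - 1 / 2 * ∫ x in U, fY x ≤ c * ∫ x in U, dens u g x := by
    rw [← e3]; exact hs
  have hs2 := mul_le_mul_of_nonneg_left hDU hc0
  rw [e4] at ho
  rw [e5]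
  have hcη : c * (η * A) ≤ (C5 * (C2 * C2 ^ q) * Cu) * (η * A) := by
    refine mul_le_mul_of_nonneg_right ?_ hηA
    rw [hc, Real.mul_rpow (by linarith) hηA, Real.mul_rpow hη0 hA0.le]
    have h1 : η ^ q ≤ 1 := Real.rpow_le_one hη0 hη1 hq0.le
    have h2 : ε ^ sg N p * (η ^ q * A ^ q) ≤ Cu := by
      calc ε ^ sg N p * (η ^ q * A ^ q) = η ^ q * (ε ^ sg N p * A ^ q) := by ring
        _ ≤ 1 * (ε ^ sg N p * A ^ q) := mul_le_mul_of_nonneg_right h1 (by positivity)
        _ ≤ Cu := by rw [one_mul]; exact hcu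
    have h3 : 0 ≤ C5 * (C2 * C2 ^ q) := by positivity
    have h4 := mul_le_mul_of_nonneg_left h2 h3
    calc C5 * ε ^ sg N p * (C2 * (C2 ^ q * (η ^ q * A ^ q))) =
          C5 * (C2 * C2 ^ q) * (ε ^ sg N p * (η ^ q * A ^ q)) := by ring
      _ ≤ _ := h4
  have h7 : 0 ≤ C4 * (η * A) := by positivity
  have h8 : 0 ≤ C5 * (C2 * C2 ^ q) * Cu := by positivity
  nlinarith

/-- the energy goes to infinity -/
theorem energy_large (N : ℕ) (hN : 2 ≤ N) (p : ℝ) (hp : 2 < p)
    (hp2 : p * ((N : ℝ) - 2) < 2 * N) (M : ℝ) :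
    ∃ ε0 : ℝ, 0 < ε0 ∧ ∀ ε : ℝ, 0 < ε → ε < ε0 → ∀ (u : E N → ℝ) (g : E N → E N),
      IsLeast p ε u g → M ≤ ∫ x, dens u g x := by
  obtain ⟨c, hc, H⟩ := lower N hN p hp hp2
  have hs := sg_pos hp2
  set q : ℝ := (p - 2) / 2 with hq
  have hq0 : 0 < q := by rw [hq]; linarith
  set M' : ℝ := max M 1 with hM'
  have hM'0 : 0 < M' := lt_of_lt_of_le one_pos (le_max_right _ _)
  have hMq : 0 < M' ^ q := Real.rpow_pos_of_pos hM'0 _
  refine ⟨min (1 / 16) ((c / M' ^ q) ^ (1 / sg N p)), by positivity, ?_⟩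
  intro ε hε hε0 u g hu
  have h1 := H ε hε (by linarith [lt_of_lt_of_le hε0 (min_le_left _ _)]) u g hu
  have h2 : ε ^ sg N p ≤ c / M' ^ q := by
    have h3 := Real.rpow_le_rpow hε.le (le_of_lt (lt_of_lt_of_le hε0 (min_le_right _ _))) hs.le
    rwa [← Real.rpow_mul (by positivity), one_div, inv_mul_cancel₀ hs.ne', Real.rpow_one] at h3
  have hA0 : 0 ≤ ∫ x, dens u g x := integral_nonneg (dens_nonneg u g)
  by_contra hcon
  push Not at hcon
  have h4 : ∫ x, dens u g x < M' := lt_of_lt_of_le hcon (le_max_left _ _)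
  have h5 : (∫ x, dens u g x) ^ q < M' ^ q := Real.rpow_lt_rpow hA0 h4 hq0
  have h6 : 0 < ε ^ sg N p := Real.rpow_pos_of_pos hε _
  have h7 : ε ^ sg N p * (∫ x, dens u g x) ^ q < ε ^ sg N p * M' ^ q :=
    mul_lt_mul_of_pos_left h5 h6
  have h8 : ε ^ sg N p * M' ^ q ≤ c := by
    rw [le_div_iff₀ hMq] at h2; exact h2
  linarith

theorem int_p_ge {N : ℕ} {p ε : ℝ} {u : E N → ℝ} {g : E N → E N} (hu : IsLeast p ε u g)
    (hup : Integrable (fun x => |u x| ^ p) (volume : Measure (E N))) :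
    ∫ x, dens u g x ≤ ∫ x, |u x| ^ p := by
  rw [hu.2.1.2.2]
  refine integral_mono (Q_int ε hup) hup fun x => ?_
  have h1 : 0 ≤ |u x| ^ p := by positivity
  have h2 := le_abs_self (Q ε x)
  rw [Q_abs] at h2
  simp only
  nlinarith

open Classical in
/-- the cell containing most of the energy -/
noncomputable def cellOf {N : ℕ} (u : E N → ℝ) (g : E N → E N) : Fin N → ℤ :=
  if h : ∃ z : Fin N → ℤ, 3 / 4 * (∫ x, dens u g x) ≤ ∫ x in Metric.ball (pt z) (1 / 4), dens u g x
  then h.choose else 0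

theorem cellOf_eq {N : ℕ} {u : E N → ℝ} {g : E N → E N} (hu : InH1 u g)
    (h0 : 0 < ∫ x, dens u g x) {z : Fin N → ℤ}
    (h : 3 / 4 * (∫ x, dens u g x) ≤ ∫ x in Metric.ball (pt z) (1 / 4), dens u g x) :
    cellOf u g = z := by
  have hex : ∃ z : Fin N → ℤ, 3 / 4 * (∫ x, dens u g x) ≤
      ∫ x in Metric.ball (pt z) (1 / 4), dens u g x := ⟨z, h⟩
  unfold cellOf
  rw [dif_pos hex]
  by_contra hne
  have h1 := hex.choose_spec
  have hd := disj (N := N) (δ := 1 / 4) (by norm_num) hne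
  have h2 := setIntegral_union hd Metric.isOpen_ball.measurableSet (int_dens hu).integrableOn
    (int_dens hu).integrableOn (μ := volume)
  have h3 := set_dens_le hu (Metric.ball (pt hex.choose : E N) (1 / 4) ∪
    Metric.ball (pt z : E N) (1 / 4))
  linarith

theorem ratio_lim {a b : ℕ → ℝ} (hb : ∀ n, 0 < b n) (hab : ∀ n, a n ≤ b n)
    (h : ∀ η : ℝ, 0 < η → ∀ᶠ n in atTop, (1 - η) * b n ≤ a n) :
    Tendsto (fun n => a n / b n) atTop (𝓝 1) := by
  rw [tendsto_order]
  constructor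
  · intro c hc
    filter_upwards [h ((1 - c) / 2) (by linarith)] with n hn
    rw [lt_div_iff₀ (hb n)]
    have := hb n
    nlinarith
  · intro c hc
    refine Eventually.of_forall fun n => ?_
    rw [div_lt_iff₀ (hb n)]
    have := hb n
    have := hab n
    nlinarith

theorem shift_ball {N : ℕ} (f : E N → ℝ) (y : E N) (δ : ℝ) :
    ∫ x in Metric.ball (0 : E N) δ, f (x + y) = ∫ x in Metric.ball y δ, f x := by
  have mp : MeasurePreserving (fun x : E N => x + y) volume volume :=
    measurePreserving_add_right volume y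
  have me : MeasurableEmbedding (fun x : E N => x + y) := measurableEmbedding_addRight y
  have h := mp.setIntegral_preimage_emb me f (Metric.ball y δ)
  rw [← h]
  congr 1
  congr 1
  ext x
  simp [Metric.mem_ball, dist_eq_norm]

/-- Global concentration. -/
theorem main (N : ℕ) (hN : 2 ≤ N) (p : ℝ) (hp : 2 < p) (hp2 : p * ((N : ℝ) - 2) < 2 * N)
    (ε : ℕ → ℝ) (hε : ∀ n, 0 < ε n) (hε0 : Tendsto ε atTop (𝓝 0))
    (u : ℕ → E N → ℝ) (g : ℕ → E N → E N) (hu : ∀ n, IsLeast p (ε n) (u n) (g n)) :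
    ∃ y : ℕ → Fin N → ℤ, ∀ δ : ℝ, 0 < δ → δ < 1 / 2 →
      Tendsto (fun n => (∫ x in Metric.ball (pt (y n)) δ, dens (u n) (g n) x) /
        ∫ x, dens (u n) (g n) x) atTop (𝓝 1) ∧
      Tendsto (fun n => (∫ x in Metric.ball (pt (y n)) δ, |u n x| ^ p) / ∫ x, |u n x| ^ p) atTop
        (𝓝 1) := by
  obtain ⟨C0, hC0, HG⟩ := gn N hN p hp hp2
  have hpos : ∀ n, 0 < ∫ x, dens (u n) (g n) x := fun n => pos_of_ne (hu n).1.1 (hu n).2.1.2.1
  have hup : ∀ n, Integrable (fun x => |u n x| ^ p) (volume : Measure (E N)) :=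
    fun n => (HG _ _ (hu n).1.1).1
  refine ⟨fun n => cellOf (u n) (g n), ?_⟩
  -- first for small radii
  have small : ∀ δ : ℝ, 0 < δ → δ ≤ 1 / 4 → ∀ η : ℝ, 0 < η →
      ∀ᶠ n in atTop, (1 - η) * (∫ x, dens (u n) (g n) x) ≤
        ∫ x in Metric.ball (pt (cellOf (u n) (g n))) δ, dens (u n) (g n) x := by
    intro δ hδ hδ1 η hη
    set η' : ℝ := min η (1 / 4) with hη'
    have hη'0 : 0 < η' := by positivity
    have hη'1 : η' ≤ 1 / 4 := min_le_right _ _
    obtain ⟨E0, HE⟩ := conc1 N hN p hp hp2 δ hδ (by linarith) η' hη'0 (by linarith)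
    obtain ⟨ε0, hε00, HL⟩ := energy_large N hN p hp hp2 E0
    filter_upwards [hε0.eventually (gt_mem_nhds hε00),
      hε0.eventually (gt_mem_nhds (show (0 : ℝ) < δ / 4 by positivity))] with n h1 h2
    obtain ⟨z, hz⟩ := HE (ε n) (hε n) (by linarith) (u n) (g n) (hu n)
      (HL (ε n) (hε n) h1 (u n) (g n) (hu n))
    have h3 : cellOf (u n) (g n) = z := by
      refine cellOf_eq (hu n).1.1 (hpos n) ?_
      have h4 : ∫ x in Metric.ball (pt z) δ, dens (u n) (g n) x ≤
          ∫ x in Metric.ball (pt z) (1 / 4), dens (u n) (g n) x :=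
        setIntegral_mono_set (int_dens (hu n).1.1).integrableOn
          (Eventually.of_forall fun x => dens_nonneg _ _ x)
          (Metric.ball_subset_ball hδ1).eventuallyLE
      have h5 := hpos n
      nlinarith
    rw [h3]
    have h5 := hpos n
    have h6 : η' ≤ η := min_le_left _ _
    nlinarith
  have smallp : ∀ δ : ℝ, 0 < δ → δ ≤ 1 / 4 → ∀ η : ℝ, 0 < η →
      ∀ᶠ n in atTop, (1 - η) * (∫ x, |u n x| ^ p) ≤
        ∫ x in Metric.ball (pt (cellOf (u n) (g n))) δ, |u n x| ^ p := by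
    intro δ hδ hδ1 η hη
    obtain ⟨C, hC, HC⟩ := conc2 N hN p hp hp2 δ hδ (by linarith)
    set η' : ℝ := min 1 (η / (2 * C)) with hη'
    have hη'0 : 0 < η' := by positivity
    obtain ⟨ε0, hε00, HL⟩ := energy_large N hN p hp hp2 (2 * C / η)
    filter_upwards [small δ hδ hδ1 η' hη'0, hε0.eventually (gt_mem_nhds hε00),
      hε0.eventually (gt_mem_nhds (show (0 : ℝ) < δ / 4 by positivity))] with n h0 h1 h2
    have h3 := HC (ε n) (hε n) (by linarith) (u n) (g n) (hu n) _ η' hη'0.le (min_le_left _ _) h0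
    have h4 := HL (ε n) (hε n) h1 (u n) (g n) (hu n)
    have h5 := int_p_ge (hu n) (hup n)
    have h6 := integral_add_compl (Metric.isOpen_ball (x := (pt (cellOf (u n) (g n)) : E N))
      (ε := δ)).measurableSet (hup n)
    have h7 : C * η' ≤ η / 2 := by
      have : η' ≤ η / (2 * C) := min_le_right _ _
      rw [le_div_iff₀ (by positivity)] at this
      linarith
    have h8 : C ≤ η / 2 * ∫ x, dens (u n) (g n) x := by
      rw [div_le_iff₀ hη] at h4; linarith
    have h9 := hpos n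
    nlinarith
  intro δ hδ hδ1
  set δ' : ℝ := min δ (1 / 4) with hδ'
  have hδ'0 : 0 < δ' := by positivity
  have hδ'1 : δ' ≤ 1 / 4 := min_le_right _ _
  have hδ'2 : δ' ≤ δ := min_le_left _ _
  constructor
  · refine ratio_lim hpos (fun n => set_dens_le (hu n).1.1 _) fun η hη => ?_
    filter_upwards [small δ' hδ'0 hδ'1 η hη] with n hn
    refine hn.trans (setIntegral_mono_set (int_dens (hu n).1.1).integrableOn
      (Eventually.of_forall fun x => dens_nonneg _ _ x)
      (Metric.ball_subset_ball hδ'2).eventuallyLE)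
  · have hpp : ∀ n, 0 < ∫ x, |u n x| ^ p := fun n =>
      lt_of_lt_of_le (hpos n) (int_p_ge (hu n) (hup n))
    refine ratio_lim hpp (fun n => setIntegral_le_integral (hup n)
      (Eventually.of_forall fun x => by positivity)) fun η hη => ?_
    filter_upwards [smallp δ' hδ'0 hδ'1 η hη] with n hn
    refine hn.trans (setIntegral_mono_set (hup n).integrableOn
      (Eventually.of_forall fun x => by positivity)
      (Metric.ball_subset_ball hδ'2).eventuallyLE)

end Pool.Agent.Q62.PC
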