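import Pool.Agent.Q62.PC.Tr

/-! The mass in a small ball is controlled by a small part of the mass outside and the gradient. -/

open MeasureTheory Set Filter Topology
open scoped ENNReal NNReal ContDiff

namespace Pool.Agent.Q62.PC

theorem pow_split {p a b : ℝ} (hp : 0 < p) :
    |a| ^ p ≤ 2 ^ p * (|b| ^ p + |b - a| ^ p) := by
  have h1 : |a| ≤ 2 * max |b| |b - a| := by
    have : |a| ≤ |b| + |b - a| := by
      have := abs_sub_abs_le_abs_sub a b
      rw [abs_sub_comm a b] at this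
      linarith
    have h2 := le_max_left |b| |b - a|
    have h3 := le_max_right |b| |b - a|
    linarith
  have h4 : |a| ^ p ≤ (2 * max |b| |b - a|) ^ p :=
    Real.rpow_le_rpow (abs_nonneg _) h1 hp.le
  have hm : 0 ≤ max |b| |b - a| := (abs_nonneg _).trans (le_max_left _ _)
  rw [Real.mul_rpow (by norm_num) hm] at h4
  refine h4.trans (mul_le_mul_of_nonneg_left ?_ (by positivity))
  rcases max_cases |b| |b - a| with ⟨h, _⟩ | ⟨h, _⟩ <;> rw [h]
  · have : 0 ≤ |b - a| ^ p := by positivity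
    linarith
  · have : 0 ≤ |b| ^ p := by positivity
    linarith

theorem grad_diff_le {N : ℕ} {g : E N → E N} (hg : MemLp g 2 volume) (h : E N) :
    ∫ x, ‖g (x + h) - g x‖ ^ 2 ≤ 4 * ∫ x, ‖g x‖ ^ 2 := by
  have mp : MeasurePreserving (fun x : E N => x + h) volume volume :=
    measurePreserving_add_right volume h
  have i1 : Integrable (fun x => ‖g x‖ ^ 2) (volume : Measure (E N)) :=
    hg.integrable_norm_pow (by norm_num)
  have i2 : Integrable (fun x => ‖g (x + h)‖ ^ 2) (volume : Measure (E N)) :=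
    (hg.comp_measurePreserving mp).integrable_norm_pow (by norm_num)
  have i3 : Integrable (fun x => ‖g (x + h) - g x‖ ^ 2) (volume : Measure (E N)) :=
    ((hg.comp_measurePreserving mp).sub hg).integrable_norm_pow (by norm_num)
  have e : ∫ x, ‖g (x + h)‖ ^ 2 = ∫ x, ‖g x‖ ^ 2 :=
    integral_add_right_eq_self (fun x => ‖g x‖ ^ 2) h
  calc ∫ x, ‖g (x + h) - g x‖ ^ 2 ≤ ∫ x, (2 * ‖g (x + h)‖ ^ 2 + 2 * ‖g x‖ ^ 2) := by
        refine integral_mono i3 ((i2.const_mul 2).add (i1.const_mul 2)) fun x => ?_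
        have h1 := norm_sub_le (g (x + h)) (g x)
        have h2 : ‖g (x + h) - g x‖ ^ 2 ≤ (‖g (x + h)‖ + ‖g x‖) ^ 2 :=
          pow_le_pow_left₀ (norm_nonneg _) h1 2
        simp only
        nlinarith [sq_nonneg (‖g (x + h)‖ - ‖g x‖)]
    _ = 4 * ∫ x, ‖g x‖ ^ 2 := by
        rw [integral_add (i2.const_mul 2) (i1.const_mul 2), integral_const_mul, integral_const_mul,
          e]
        ring

/-- the difference of a function and its translate in `L^p` -/
theorem diff_bound (N : ℕ) (hN : 2 ≤ N) (p : ℝ) (hp : 2 < p) (hp2 : p * ((N : ℝ) - 2) < 2 * N) :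
    ∃ C : ℝ, 0 < C ∧ ∀ (v : E N → ℝ) (g : E N → E N), InH1 v g → ∀ (h : E N) (r : ℝ), ‖h‖ ≤ r →
      Integrable (fun x => |v (x + h) - v x| ^ p) (volume : Measure (E N)) ∧
      ∫ x, |v (x + h) - v x| ^ p ≤ C * r ^ sg N p * (∫ x, ‖g x‖ ^ 2) ^ (p / 2) := by
  obtain ⟨C0, hC0, H⟩ := gn N hN p hp hp2
  have hs := sg_pos hp2
  have hs2 := sg_lt hN hp
  refine ⟨C0 * 4 ^ ((p - sg N p) / 2), by positivity, ?_⟩
  intro v g hv h r hr
  have hw := (hv.translate h).sub hv
  have H1 := H (fun x => v (x + h) - v x) (fun x => g (x + h) - g x) hw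
  beta_reduce at H1
  refine ⟨H1.1, ?_⟩
  have hw2 := H1.2
  have h5 := hv.transl_le h
  have h6 := grad_diff_le hv.2.1 h
  have h8 : 0 ≤ ∫ x, (v (x + h) - v x) ^ 2 := integral_nonneg fun x => sq_nonneg _
  have h9 : 0 ≤ ∫ x, ‖g (x + h) - g x‖ ^ 2 := integral_nonneg fun x => sq_nonneg _
  have hG0 : 0 ≤ ∫ x, ‖g x‖ ^ 2 := integral_nonneg fun x => sq_nonneg _
  have hr0 : 0 ≤ r := (norm_nonneg _).trans hr
  generalize (∫ x, |v (x + h) - v x| ^ p) = I at *
  generalize (∫ x, (v (x + h) - v x) ^ 2) = A at *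
  generalize (∫ x, ‖g (x + h) - g x‖ ^ 2) = B at *
  generalize (∫ x, ‖g x‖ ^ 2) = G at *
  generalize sg N p = σ at *
  have h7 : A ≤ r ^ 2 * G :=
    h5.trans (mul_le_mul_of_nonneg_right (pow_le_pow_left₀ (norm_nonneg _) hr 2) hG0)
  have a1 := Real.rpow_le_rpow h8 h7 (show 0 ≤ σ / 2 by linarith)
  have a2 := Real.rpow_le_rpow h9 h6 (show 0 ≤ (p - σ) / 2 by linarith)
  calc I ≤ C0 * A ^ (σ / 2) * B ^ ((p - σ) / 2) := hw2
    _ ≤ C0 * (r ^ 2 * G) ^ (σ / 2) * (4 * G) ^ ((p - σ) / 2) := by gcongr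
    _ = _ := by
      rw [Real.mul_rpow (by positivity) hG0, Real.mul_rpow (by norm_num) hG0,
        ← Real.rpow_natCast r 2, ← Real.rpow_mul (by positivity)]
      have e1 : ((2 : ℕ) : ℝ) * (σ / 2) = σ := by push_cast; ring
      have e2 : G ^ (p / 2) = G ^ (σ / 2) * G ^ ((p - σ) / 2) := by
        rw [← Real.rpow_add_of_nonneg hG0 (by linarith) (by linarith)]
        congr 1; ring
      rw [e1, e2]; ring

theorem core_bound (N : ℕ) (hN : 2 ≤ N) (p : ℝ) (hp : 2 < p) (hp2 : p * ((N : ℝ) - 2) < 2 * N)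
    (τ : ℝ) (hτ : 0 < τ) : ∃ C : ℝ, 0 < C ∧ ∀ ε : ℝ, 0 < ε → ∀ (y : E N) (v : E N → ℝ)
      (g : E N → E N), InH1 v g → ∫ x in Metric.ball y ε, |v x| ^ p ≤
        τ * (∫ x in (Metric.ball y ε)ᶜ, |v x| ^ p) + C * ε ^ sg N p * (∫ x, ‖g x‖ ^ 2) ^ (p / 2) := by
  obtain ⟨C00, hC00, H⟩ := gn N hN p hp hp2
  obtain ⟨C0, hC0, HD⟩ := diff_bound N hN p hp hp2
  set σ : ℝ := sg N p with hσ
  obtain ⟨M0, hM0⟩ := exists_nat_gt (2 ^ p / τ)
  have hM0p : (0 : ℝ) < M0 := lt_of_le_of_lt (by positivity) hM0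
  have hM0n : 0 < M0 := by exact_mod_cast hM0p
  refine ⟨2 ^ p * (C0 * (3 * M0) ^ σ), by positivity, ?_⟩
  intro ε hε y v g hv
  have : NeZero N := ⟨by omega⟩
  set e : E N := EuclideanSpace.single (0 : Fin N) (1 : ℝ) with he
  have hne : ‖e‖ = 1 := by rw [he]; simp
  set hh : ℕ → E N := fun i => (3 * ((i : ℝ) + 1) * ε) • e with hhh
  set G : ℝ := ∫ x, ‖g x‖ ^ 2 with hG
  have hG0 : 0 ≤ G := integral_nonneg fun x => sq_nonneg _
  have iv := (H v g hv).1
  have mp : ∀ h : E N, MeasurePreserving (fun x : E N => x + h) volume volume := fun h =>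
    measurePreserving_add_right volume h
  -- each translate
  have hone : ∀ i < M0, ∫ x in Metric.ball y ε, |v x| ^ p ≤
      2 ^ p * (∫ x in Metric.ball (y + hh i) ε, |v x| ^ p) +
        2 ^ p * (C0 * (3 * M0) ^ σ) * ε ^ σ * G ^ (p / 2) := by
    intro i hi
    have hnorm : ‖hh i‖ ≤ 3 * M0 * ε := by
      rw [hhh]
      simp only
      rw [norm_smul, hne, mul_one, Real.norm_eq_abs, abs_of_nonneg (by positivity)]
      have : (i : ℝ) + 1 ≤ M0 := by exact_mod_cast hi
      have : 3 * ((i : ℝ) + 1) ≤ 3 * M0 := by linarith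
      exact mul_le_mul_of_nonneg_right this hε.le
    obtain ⟨iw, hw2⟩ := HD v g hv (hh i) (3 * M0 * ε) hnorm
    have ivh : Integrable (fun x => |v (x + hh i)| ^ p) (volume : Measure (E N)) :=
      (H _ _ (hv.translate (hh i))).1
    have h1 : ∫ x in Metric.ball y ε, |v x| ^ p ≤
        ∫ x in Metric.ball y ε, (2 ^ p * |v (x + hh i)| ^ p + 2 ^ p * |v (x + hh i) - v x| ^ p) := by
      refine integral_mono iv.integrableOn
        ((ivh.integrableOn.const_mul _).add (iw.integrableOn.const_mul _)) fun x => ?_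
      have := pow_split (p := p) (a := v x) (b := v (x + hh i)) (by linarith)
      simp only
      linarith
    rw [integral_add (ivh.integrableOn.const_mul _) (iw.integrableOn.const_mul _),
      integral_const_mul, integral_const_mul] at h1
    have h2 : ∫ x in Metric.ball y ε, |v (x + hh i)| ^ p =
        ∫ x in Metric.ball (y + hh i) ε, |v x| ^ p := by
      have hpre : (fun x : E N => x + hh i) ⁻¹' (Metric.ball (y + hh i) ε) = Metric.ball y ε := by
        ext x
        simp [Metric.mem_ball]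
      rw [← hpre]
      exact (mp (hh i)).setIntegral_preimage_emb (measurableEmbedding_addRight (hh i))
        (fun x => |v x| ^ p) (Metric.ball (y + hh i) ε)
    have h3 : ∫ x in Metric.ball y ε, |v (x + hh i) - v x| ^ p ≤
        C0 * (3 * M0) ^ σ * ε ^ σ * G ^ (p / 2) := by
      refine (setIntegral_le_integral iw (Eventually.of_forall fun x => by positivity)).trans
        (hw2.trans_eq ?_)
      rw [Real.mul_rpow (by positivity) hε.le]
      ring
    rw [h2] at h1
    have h10 : 2 ^ p * (∫ x in Metric.ball y ε, |v (x + hh i) - v x| ^ p) ≤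
        2 ^ p * (C0 * (3 * M0) ^ σ * ε ^ σ * G ^ (p / 2)) :=
      mul_le_mul_of_nonneg_left h3 (by positivity)
    have e3 : 2 ^ p * (C0 * (3 * (M0 : ℝ)) ^ σ) * ε ^ σ * G ^ (p / 2) =
        2 ^ p * (C0 * (3 * M0) ^ σ * ε ^ σ * G ^ (p / 2)) := by ring
    rw [e3]
    linarith
  -- sum over the translates
  have hdist : ∀ i j : ℕ, i ≠ j → 2 * ε ≤ dist (y + hh i) (y + hh j) := by
    intro i j hij
    rw [dist_add_left, dist_eq_norm, hhh]
    simp only
    rw [← sub_smul, norm_smul, hne, mul_one, Real.norm_eq_abs]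
    have : (3 * ((i : ℝ) + 1) * ε - 3 * ((j : ℝ) + 1) * ε) = 3 * ε * ((i : ℝ) - j) := by ring
    rw [this, abs_mul, abs_of_pos (by positivity : (0 : ℝ) < 3 * ε)]
    have h1 : (1 : ℝ) ≤ |(i : ℝ) - j| := by
      have : (1 : ℤ) ≤ |(i : ℤ) - j| := Int.one_le_abs (sub_ne_zero.2 (by exact_mod_cast hij))
      exact_mod_cast this
    nlinarith
  have hdist0 : ∀ i : ℕ, 2 * ε ≤ dist (y + hh i) y := by
    intro i
    have e4 : dist (y + hh i) y = ‖hh i‖ := by rw [dist_eq_norm]; congr 1; abel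
    rw [e4, hhh]
    simp only
    rw [norm_smul, hne, mul_one, Real.norm_eq_abs, abs_of_nonneg (by positivity)]
    have : (0 : ℝ) ≤ i := Nat.cast_nonneg i
    nlinarith
  have hdisj : Set.Pairwise (↑(Finset.range M0) : Set ℕ)
      (Function.onFun Disjoint fun i => Metric.ball (y + hh i) ε) := by
    intro i _ j _ hij
    exact Metric.ball_disjoint_ball (by linarith [hdist i j hij])
  have hsum : ∑ i ∈ Finset.range M0, ∫ x in Metric.ball (y + hh i) ε, |v x| ^ p ≤
      ∫ x in (Metric.ball y ε)ᶜ, |v x| ^ p := by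
    rw [← integral_biUnion_finset _ (fun i _ => Metric.isOpen_ball.measurableSet) hdisj
      (fun i _ => iv.integrableOn)]
    refine setIntegral_mono_set iv.integrableOn (Eventually.of_forall fun x => by positivity) ?_
    have hsub : (⋃ i ∈ Finset.range M0, Metric.ball (y + hh i) ε) ⊆ (Metric.ball y ε)ᶜ := by
      intro x hx
      simp only [mem_iUnion] at hx
      obtain ⟨i, _, hx⟩ := hx
      intro hxy
      have h1 := Metric.mem_ball.1 hx
      have h2 := Metric.mem_ball.1 hxy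
      have h3 := dist_triangle (y + hh i) x y
      rw [dist_comm (y + hh i) x] at h3
      linarith [hdist0 i]
    exact hsub.eventuallyLE
  set f : ℝ := ∫ x in Metric.ball y ε, |v x| ^ p with hf
  set n : ℝ := ∫ x in (Metric.ball y ε)ᶜ, |v x| ^ p with hn
  have hn0 : 0 ≤ n := integral_nonneg fun x => by positivity
  set K : ℝ := 2 ^ p * (C0 * (3 * M0) ^ σ) * ε ^ σ * G ^ (p / 2) with hK
  have hall : (M0 : ℝ) * f ≤ 2 ^ p * n + M0 * K := by
    calc (M0 : ℝ) * f = ∑ i ∈ Finset.range M0, f := by simp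
      _ ≤ ∑ i ∈ Finset.range M0, (2 ^ p * (∫ x in Metric.ball (y + hh i) ε, |v x| ^ p) + K) :=
          Finset.sum_le_sum fun i hi => hone i (Finset.mem_range.1 hi)
      _ = 2 ^ p * (∑ i ∈ Finset.range M0, ∫ x in Metric.ball (y + hh i) ε, |v x| ^ p) + M0 * K := by
          rw [Finset.sum_add_distrib, ← Finset.mul_sum]; simp
      _ ≤ 2 ^ p * n + M0 * K := by
          have := mul_le_mul_of_nonneg_left hsum (show (0 : ℝ) ≤ 2 ^ p by positivity)
          linarith
  have h2 : 2 ^ p ≤ M0 * τ := by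
    rw [div_lt_iff₀ hτ] at hM0
    exact hM0.le
  have h3 : 2 ^ p * n ≤ M0 * τ * n := mul_le_mul_of_nonneg_right h2 hn0
  have h4 : (M0 : ℝ) * f ≤ M0 * (τ * n + K) := by linarith
  exact le_of_mul_le_mul_left h4 hM0p

end Pool.Agent.Q62.PC
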