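import Mathlib

/-!
Definitions for the equation `-Δu + u = Q |u|^(p-2) u` in `ℝᴺ`, where `Q = 1` on the union of the
balls of radius `ε` around the points of `ℤᴺ` and `Q = -1` elsewhere.
-/

open MeasureTheory Set Filter Topology
open scoped ENNReal NNReal ContDiff

namespace Pool.Agent.Q62.PC

/-- `ℝᴺ` -/
abbrev E (N : ℕ) := EuclideanSpace ℝ (Fin N)

/-- `φ ∈ C_c^∞(ℝᴺ)` -/
def IsTest {N : ℕ} (φ : E N → ℝ) : Prop := ContDiff ℝ ∞ φ ∧ HasCompactSupport φ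

/-- `u ∈ H¹(ℝᴺ)` and `g = ∇u`: the pair `(u, g)` is the limit in `L²` of pairs `(φ k, ∇φ k)` with
`φ k ∈ C_c^∞(ℝᴺ)` -/
def InH1 {N : ℕ} (u : E N → ℝ) (g : E N → E N) : Prop :=
  MemLp u 2 volume ∧ MemLp g 2 volume ∧ ∃ φ : ℕ → E N → ℝ, (∀ k, IsTest (φ k)) ∧
    Tendsto (fun k => eLpNorm (φ k - u) 2 volume) atTop (𝓝 0) ∧
    Tendsto (fun k => eLpNorm (gradient (φ k) - g) 2 volume) atTop (𝓝 0)

/-- the point `z` of `ℤᴺ` -/
def pt {N : ℕ} (z : Fin N → ℤ) : E N := WithLp.toLp 2 fun i => (z i : ℝ)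

/-- the union of the balls of radius `ε` around the points of `ℤᴺ` -/
def core (N : ℕ) (ε : ℝ) : Set (E N) := ⋃ z : Fin N → ℤ, Metric.ball (pt z) ε

open Classical in
/-- `Q = 1` on the core and `-1` elsewhere -/
noncomputable def Q {N : ℕ} (ε : ℝ) (x : E N) : ℝ := if x ∈ core N ε then 1 else -1

/-- the energy density `|∇u|² + u²` -/
noncomputable def dens {N : ℕ} (u : E N → ℝ) (g : E N → E N) (x : E N) : ℝ :=
  ‖g x‖ ^ 2 + u x ^ 2

/-- the energy functional -/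
noncomputable def J {N : ℕ} (p ε : ℝ) (u : E N → ℝ) (g : E N → E N) : ℝ :=
  1 / 2 * (∫ x, dens u g x) - 1 / p * ∫ x, Q ε x * |u x| ^ p

/-- `u` is in the Nehari manifold, `g = ∇u` -/
def InNehari {N : ℕ} (p ε : ℝ) (u : E N → ℝ) (g : E N → E N) : Prop :=
  InH1 u g ∧ ¬ u =ᵐ[volume] 0 ∧ ∫ x, dens u g x = ∫ x, Q ε x * |u x| ^ p

/-- `u` is a weak solution (critical point of the energy functional), `g = ∇u` -/
def IsSol {N : ℕ} (p ε : ℝ) (u : E N → ℝ) (g : E N → E N) : Prop :=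
  InH1 u g ∧ ∀ (v : E N → ℝ) (h : E N → E N), InH1 v h →
    ∫ x, (inner ℝ (g x) (h x) + u x * v x) = ∫ x, Q ε x * (|u x| ^ (p - 2) * u x) * v x

/-- `u` is a least energy solution, `g = ∇u` -/
def IsLeast {N : ℕ} (p ε : ℝ) (u : E N → ℝ) (g : E N → E N) : Prop :=
  IsSol p ε u g ∧ InNehari p ε u g ∧
    ∀ (v : E N → ℝ) (h : E N → E N), InNehari p ε v h → J p ε u g ≤ J p ε v h

end Pool.Agent.Q62.PC
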