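import Pool.Agent.Q62.PC.Defs
import Pool.Agent.Q62.AG.Sob

/-! The Gagliardo-Nirenberg inequality for test functions. -/

open MeasureTheory Set Filter Topology
open scoped ENNReal NNReal ContDiff

namespace Pool.Agent.Q62.PC

theorem norm_gradient_eq {N : ℕ} (φ : E N → ℝ) (x : E N) : ‖gradient φ x‖ = ‖fderiv ℝ φ x‖ := by
  unfold gradient
  simp

theorem IsTest.c1 {N : ℕ} {φ : E N → ℝ} (h : IsTest φ) : ContDiff ℝ 1 φ := h.1.of_le (by norm_cast)

theorem grad_cont {N : ℕ} {φ : E N → ℝ} (h : ContDiff ℝ 1 φ) : Continuous (gradient φ) := by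
  have := h.continuous_fderiv (by norm_num)
  unfold gradient
  exact (InnerProductSpace.toDual ℝ (E N)).symm.continuous.comp this

theorem grad_supp {N : ℕ} {φ : E N → ℝ} (h : HasCompactSupport φ) :
    HasCompactSupport (gradient φ) := by
  refine (h.fderiv ℝ).mono ?_
  intro x hx
  simp only [Function.mem_support, ne_eq] at hx ⊢
  intro h0
  apply hx
  unfold gradient
  rw [h0, map_zero]

/-- interpolation between `L²` and `L^q` -/
theorem interp {N : ℕ} (f : E N → ℝ) (hf : Continuous f) (hc : HasCompactSupport f) (p q : ℝ)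
    (hp : 2 < p) (hq : p < q) :
    ∫ x, |f x| ^ p ≤ (∫ x, (f x) ^ 2) ^ ((q - p) / (q - 2)) *
      (∫ x, |f x| ^ q) ^ ((p - 2) / (q - 2)) := by
  set a : ℝ := (q - p) / (q - 2) with ha
  set b : ℝ := (p - 2) / (q - 2) with hb
  have hq2 : 0 < q - 2 := by linarith
  have ha0 : 0 < a := div_pos (by linarith) hq2
  have hb0 : 0 < b := div_pos (by linarith) hq2
  have hab : a + b = 1 := by rw [ha, hb]; field_simp; ring
  have hcs : ∀ r : ℝ, 0 < r → HasCompactSupport fun x => |f x| ^ r := by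
    intro r hr
    refine hc.mono ?_
    intro x hx
    simp only [Function.mem_support, ne_eq] at hx ⊢
    intro h0
    apply hx
    rw [h0, abs_zero, Real.zero_rpow hr.ne']
  have hct : ∀ r : ℝ, 0 < r → Continuous fun x => |f x| ^ r := fun r hr =>
    hf.abs.rpow_const (fun x => Or.inr hr.le)
  have hconj : (1 / a).HolderConjugate (1 / b) := by
    rw [Real.holderConjugate_iff]
    refine ⟨?_, ?_⟩
    · rw [lt_div_iff₀ ha0]; linarith
    · simp [hab]
  have h2a : 0 < 2 * a := by linarith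
  have hqb : 0 < q * b := mul_pos (by linarith) hb0
  have key := integral_mul_le_Lp_mul_Lq_of_nonneg (μ := (volume : Measure (E N))) hconj
    (f := fun x => |f x| ^ (2 * a)) (g := fun x => |f x| ^ (q * b))
    (Eventually.of_forall fun x => by positivity) (Eventually.of_forall fun x => by positivity)
    ((hct _ h2a).memLp_of_hasCompactSupport (hcs _ h2a))
    ((hct _ hqb).memLp_of_hasCompactSupport (hcs _ hqb))
  have e1 : ∀ x, |f x| ^ (2 * a) * |f x| ^ (q * b) = |f x| ^ p := by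
    intro x
    rw [← Real.rpow_add_of_nonneg (abs_nonneg _) h2a.le hqb.le]
    congr 1
    rw [ha, hb]; field_simp; ring
  have e2 : ∀ x, (|f x| ^ (2 * a)) ^ a⁻¹ = (f x) ^ 2 := by
    intro x
    rw [← Real.rpow_mul (abs_nonneg _)]
    have : 2 * a * a⁻¹ = 2 := by field_simp
    rw [this]
    norm_num
  have e3 : ∀ x, (|f x| ^ (q * b)) ^ b⁻¹ = |f x| ^ q := by
    intro x
    rw [← Real.rpow_mul (abs_nonneg _)]
    have : q * b * b⁻¹ = q := by field_simp
    rw [this]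
  simp only [e1, e2, e3, one_div, inv_inv] at key
  exact key

/-- the exponent `σ = N - p (N - 2) / 2` -/
noncomputable def sg (N : ℕ) (p : ℝ) : ℝ := N - p * ((N : ℝ) - 2) / 2

theorem gn_ge3 (N : ℕ) (hN : 3 ≤ N) (p : ℝ) (hp : 2 < p) (hp2 : p * ((N : ℝ) - 2) < 2 * N) :
    ∃ C : ℝ, 0 < C ∧ ∀ φ : E N → ℝ, IsTest φ → ∫ x, |φ x| ^ p ≤
      C * (∫ x, (φ x) ^ 2) ^ (sg N p / 2) * (∫ x, ‖gradient φ x‖ ^ 2) ^ ((p - sg N p) / 2) := by
  have h3 : (3 : ℝ) ≤ N := by exact_mod_cast hN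
  have hN2 : (0 : ℝ) < (N : ℝ) - 2 := by linarith
  obtain ⟨K, hK, hS⟩ := AG.sobolev N hN
  set q : ℝ := AG.twoStar N with hq
  have hq2 : 2 < q := AG.twoStar_pos hN
  have hpq : p < q := by
    rw [hq]; unfold AG.twoStar
    rw [lt_div_iff₀ hN2]; exact hp2
  refine ⟨(K ^ (q / 2)) ^ ((p - 2) / (q - 2)), by positivity, ?_⟩
  intro φ hφ
  have h1 := interp φ hφ.1.continuous hφ.2 p q hp hpq
  have h2 := hS φ ⟨hφ.1, hφ.2, subset_univ _⟩
  set A : ℝ := ∫ x, (φ x) ^ 2 with hA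
  set B : ℝ := ∫ x, ‖gradient φ x‖ ^ 2 with hB
  set D : ℝ := ∫ x, |φ x| ^ q with hD
  have hA0 : 0 ≤ A := integral_nonneg fun x => sq_nonneg _
  have hB0 : 0 ≤ B := integral_nonneg fun x => sq_nonneg _
  have hD0 : 0 ≤ D := integral_nonneg fun x => by positivity
  have hDle : D ≤ (K * B) ^ (q / 2) := by
    have h3 := Real.rpow_le_rpow (by positivity) h2 (show 0 ≤ q / 2 by linarith)
    rw [← Real.rpow_mul hD0] at h3
    have : 2 / q * (q / 2) = 1 := by field_simp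
    rwa [this, Real.rpow_one] at h3
  have hb0 : 0 ≤ (p - 2) / (q - 2) := div_nonneg (by linarith) (by linarith)
  have h4 : D ^ ((p - 2) / (q - 2)) ≤ (K ^ (q / 2)) ^ ((p - 2) / (q - 2)) *
      B ^ ((p - sg N p) / 2) := by
    calc D ^ ((p - 2) / (q - 2)) ≤ ((K * B) ^ (q / 2)) ^ ((p - 2) / (q - 2)) :=
          Real.rpow_le_rpow hD0 hDle hb0
      _ = (K ^ (q / 2)) ^ ((p - 2) / (q - 2)) * (B ^ (q / 2)) ^ ((p - 2) / (q - 2)) := by
          rw [Real.mul_rpow hK.le hB0, Real.mul_rpow (by positivity) (by positivity)]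
      _ = _ := by
          rw [← Real.rpow_mul hB0]
          congr 2
          rw [hq]
          unfold sg AG.twoStar
          have : (N : ℝ) ≠ 0 := by linarith
          have e : 2 * (N : ℝ) / ((N : ℝ) - 2) - 2 = 4 / ((N : ℝ) - 2) := by field_simp; ring
          rw [e]
          field_simp
          ring
  have e5 : (q - p) / (q - 2) = sg N p / 2 := by
    rw [hq]
    unfold sg AG.twoStar
    have e : 2 * (N : ℝ) / ((N : ℝ) - 2) - 2 = 4 / ((N : ℝ) - 2) := by field_simp; ring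
    rw [e]
    field_simp
    ring
  rw [e5] at h1
  calc ∫ x, |φ x| ^ p ≤ A ^ (sg N p / 2) * D ^ ((p - 2) / (q - 2)) := h1
    _ ≤ A ^ (sg N p / 2) * ((K ^ (q / 2)) ^ ((p - 2) / (q - 2)) * B ^ ((p - sg N p) / 2)) :=
        mul_le_mul_of_nonneg_left h4 (by positivity)
    _ = _ := by ring

/-- Cauchy-Schwarz -/
theorem cs_cont {N : ℕ} (f g : E N → ℝ) (hf : Continuous f) (hg : Continuous g)
    (hfc : HasCompactSupport f) (hgc : HasCompactSupport g) (hf0 : ∀ x, 0 ≤ f x)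
    (hg0 : ∀ x, 0 ≤ g x) :
    (∫ x, f x * g x) ^ 2 ≤ (∫ x, f x ^ 2) * ∫ x, g x ^ 2 := by
  have key := integral_mul_le_Lp_mul_Lq_of_nonneg (μ := (volume : Measure (E N)))
    Real.HolderConjugate.two_two (Eventually.of_forall hf0) (Eventually.of_forall hg0)
    (hf.memLp_of_hasCompactSupport hfc) (hg.memLp_of_hasCompactSupport hgc)
  have e1 : ∀ x, f x ^ (2 : ℝ) = f x ^ 2 := fun x => by norm_num
  have e2 : ∀ x, g x ^ (2 : ℝ) = g x ^ 2 := fun x => by norm_num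
  simp only [e1, e2] at key
  have hA : 0 ≤ ∫ x, f x ^ 2 := integral_nonneg fun x => sq_nonneg _
  have hB : 0 ≤ ∫ x, g x ^ 2 := integral_nonneg fun x => sq_nonneg _
  have h0 : 0 ≤ ∫ x, f x * g x := integral_nonneg fun x => mul_nonneg (hf0 x) (hg0 x)
  have h1 := pow_le_pow_left₀ h0 key 2
  rw [mul_pow, ← Real.sqrt_eq_rpow, ← Real.sqrt_eq_rpow, Real.sq_sqrt hA, Real.sq_sqrt hB] at h1
  exact h1

/-- the planar case, even exponents -/
theorem gn_even : ∃ C : ℝ, 0 < C ∧ ∀ (φ : E 2 → ℝ), IsTest φ → ∀ k : ℕ, 1 ≤ k →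
    ∫ x, (φ x) ^ (2 * (k + 1)) ≤
      C * (k + 1) ^ 2 * (∫ x, (φ x) ^ (2 * k)) * ∫ x, ‖gradient φ x‖ ^ 2 := by
  set C : ℝ≥0 := eLpNormLESNormFDerivOneConst (volume : Measure (E 2)) ((2 : ℝ≥0) : ℝ) with hC
  refine ⟨(C : ℝ) ^ 2 + 1, by positivity, ?_⟩
  intro φ hφ k hk
  set ψ : E 2 → ℝ := fun x => φ x ^ (k + 1) with hψ
  have hψ1 : ContDiff ℝ 1 ψ := hφ.c1.pow _
  have hψc : HasCompactSupport ψ := by
    refine hφ.2.mono ?_
    intro x hx
    simp only [Function.mem_support, ne_eq] at hx ⊢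
    intro h0
    apply hx
    rw [hψ]
    simp [h0]
  have key := eLpNorm_le_eLpNorm_fderiv_one (volume : Measure (E 2)) (p := 2) hψ1 hψc
    (by
      simp only [finrank_euclideanSpace, Fintype.card_fin]
      exact NNReal.holderConjugate_iff.2 ⟨by norm_num, by norm_num⟩)
  rw [← hC] at key
  have hm1 : MemLp ψ 2 (volume : Measure (E 2)) := hψ1.continuous.memLp_of_hasCompactSupport hψc
  have hm2 : MemLp (fderiv ℝ ψ) 1 (volume : Measure (E 2)) :=
    (hψ1.continuous_fderiv (by norm_num)).memLp_of_hasCompactSupport (hψc.fderiv ℝ)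
  have e1 := hm1.eLpNorm_eq_integral_rpow_norm (by norm_num) (by norm_num)
  have e2 := hm2.eLpNorm_eq_integral_rpow_norm (by norm_num) (by norm_num)
  rw [show ((2 : ℝ≥0) : ℝ≥0∞) = 2 by norm_num, e1, e2] at key
  have hnorm : ∀ x, ‖fderiv ℝ ψ x‖ = (k + 1) * (|φ x| ^ k * ‖gradient φ x‖) := by
    intro x
    have hd : DifferentiableAt ℝ φ x := (hφ.c1.differentiable (by norm_num)).differentiableAt
    have : fderiv ℝ ψ x = ((k + 1 : ℕ) * φ x ^ k) • fderiv ℝ φ x := by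
      have h := (hd.hasFDerivAt.pow (k + 1)).fderiv
      simpa using h
    rw [this, norm_smul, norm_gradient_eq, norm_mul, Real.norm_eq_abs, Real.norm_eq_abs, abs_pow]
    push_cast
    rw [abs_of_nonneg (by positivity : (0 : ℝ) ≤ (k : ℝ) + 1)]
    ring
  set D : ℝ := ∫ x, (φ x) ^ (2 * (k + 1)) with hD
  set D' : ℝ := ∫ x, (φ x) ^ (2 * k) with hD'
  set B : ℝ := ∫ x, ‖gradient φ x‖ ^ 2 with hB
  set I : ℝ := ∫ x, |φ x| ^ k * ‖gradient φ x‖ with hI
  have hD0 : 0 ≤ D := integral_nonneg fun x => (even_two_mul _).pow_nonneg _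
  have hD'0 : 0 ≤ D' := integral_nonneg fun x => (even_two_mul _).pow_nonneg _
  have hB0 : 0 ≤ B := integral_nonneg fun x => sq_nonneg _
  have hI0 : 0 ≤ I := integral_nonneg fun x => by positivity
  have f1 : (∫ x, ‖ψ x‖ ^ (2 : ℝ≥0∞).toReal) = D := by
    rw [hD]
    refine integral_congr_ae (Eventually.of_forall fun x => ?_)
    simp only [ENNReal.toReal_ofNat, Real.norm_eq_abs]
    rw [hψ]
    simp only
    rw [show (2 : ℝ) = ((2 : ℕ) : ℝ) by norm_num, Real.rpow_natCast, sq_abs, ← pow_mul]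
    congr 1
    ring
  have f2 : (∫ x, ‖fderiv ℝ ψ x‖ ^ (1 : ℝ≥0∞).toReal) = (k + 1) * I := by
    rw [hI, ← integral_const_mul]
    refine integral_congr_ae (Eventually.of_forall fun x => ?_)
    simp only [ENNReal.toReal_one, Real.rpow_one]
    exact hnorm x
  rw [f1, f2] at key
  have h5 : Real.sqrt D ≤ C * ((k + 1) * I) := by
    have h4 : (C : ℝ≥0∞) * ENNReal.ofReal (((k + 1) * I) ^ (1 : ℝ≥0∞).toReal⁻¹)
        = ENNReal.ofReal (C * ((k + 1) * I)) := by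
      rw [ENNReal.ofReal_mul (by positivity), ENNReal.ofReal_coe_nnreal]
      norm_num
    rw [h4] at key
    have := (ENNReal.ofReal_le_ofReal_iff (by positivity)).1 key
    rw [Real.sqrt_eq_rpow]
    simpa using this
  have h6 : I ^ 2 ≤ D' * B := by
    have hc1 : Continuous fun x => |φ x| ^ k := (hφ.1.continuous.abs).pow k
    have hs1 : HasCompactSupport fun x => |φ x| ^ k := by
      refine hφ.2.mono ?_
      intro x hx
      simp only [Function.mem_support, ne_eq] at hx ⊢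
      intro h0
      apply hx
      rw [h0, abs_zero, zero_pow (by omega)]
    have h7 := cs_cont (fun x => |φ x| ^ k) (fun x => ‖gradient φ x‖) hc1
      (grad_cont hφ.c1).norm hs1 (grad_supp hφ.2).norm (fun x => by positivity)
      (fun x => norm_nonneg _)
    have e3 : ∀ x, (|φ x| ^ k) ^ 2 = (φ x) ^ (2 * k) := by
      intro x
      rw [← pow_mul, mul_comm k 2, pow_mul, sq_abs, ← pow_mul]
    simp only [e3] at h7
    exact h7
  have h8 : D ≤ (C * ((k + 1) * I)) ^ 2 := by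
    rw [← Real.sq_sqrt hD0]
    exact pow_le_pow_left₀ (Real.sqrt_nonneg _) h5 2
  have h9 : (C * ((k + 1) * I)) ^ 2 = C ^ 2 * (k + 1) ^ 2 * I ^ 2 := by ring
  rw [h9] at h8
  have hk2 : (0 : ℝ) ≤ ((k : ℝ) + 1) ^ 2 := by positivity
  calc D ≤ C ^ 2 * (k + 1) ^ 2 * I ^ 2 := h8
    _ ≤ C ^ 2 * (k + 1) ^ 2 * (D' * B) := mul_le_mul_of_nonneg_left h6 (by positivity)
    _ ≤ (C ^ 2 + 1) * (k + 1) ^ 2 * (D' * B) := by
        have : 0 ≤ ((k : ℝ) + 1) ^ 2 * (D' * B) := by positivity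
        nlinarith
    _ = _ := by ring

theorem gn_even' (k : ℕ) : ∃ C : ℝ, 0 < C ∧ ∀ (φ : E 2 → ℝ), IsTest φ →
    ∫ x, (φ x) ^ (2 * (k + 1)) ≤ C * (∫ x, (φ x) ^ 2) * (∫ x, ‖gradient φ x‖ ^ 2) ^ k := by
  obtain ⟨C0, hC0, h0⟩ := gn_even
  induction k with
  | zero => exact ⟨1, one_pos, fun φ _ => by simp⟩
  | succ k ih =>
    obtain ⟨C, hC, h⟩ := ih
    refine ⟨C0 * ((k + 1 : ℕ) + 1) ^ 2 * C, by positivity, ?_⟩
    intro φ hφ
    have h1 := h0 φ hφ (k + 1) (by omega)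
    have h2 := h φ hφ
    set B : ℝ := ∫ x, ‖gradient φ x‖ ^ 2 with hB
    have hB0 : 0 ≤ B := integral_nonneg fun x => sq_nonneg _
    calc ∫ x, (φ x) ^ (2 * (k + 1 + 1))
        ≤ C0 * ((k + 1 : ℕ) + 1) ^ 2 * (∫ x, (φ x) ^ (2 * (k + 1))) * B := h1
      _ ≤ C0 * ((k + 1 : ℕ) + 1) ^ 2 * (C * (∫ x, (φ x) ^ 2) * B ^ k) * B := by gcongr
      _ = _ := by rw [pow_succ]; ring

theorem gn_two (p : ℝ) (hp : 2 < p) :
    ∃ C : ℝ, 0 < C ∧ ∀ φ : E 2 → ℝ, IsTest φ → ∫ x, |φ x| ^ p ≤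
      C * (∫ x, (φ x) ^ 2) ^ (sg 2 p / 2) * (∫ x, ‖gradient φ x‖ ^ 2) ^ ((p - sg 2 p) / 2) := by
  obtain ⟨k, hk⟩ := exists_nat_gt p
  obtain ⟨C, hC, h⟩ := gn_even' k
  set q : ℝ := 2 * ((k : ℝ) + 1) with hq
  have hkp : p < k := hk
  have hpq : p < q := by rw [hq]; linarith
  have hk0 : (0 : ℝ) < k := by linarith
  refine ⟨C ^ ((p - 2) / (q - 2)), by positivity, ?_⟩
  intro φ hφ
  have h1 := interp φ hφ.1.continuous hφ.2 p q hp hpq
  have h2 := h φ hφ
  set A : ℝ := ∫ x, (φ x) ^ 2 with hA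
  set B : ℝ := ∫ x, ‖gradient φ x‖ ^ 2 with hB
  have hA0 : 0 ≤ A := integral_nonneg fun x => sq_nonneg _
  have hB0 : 0 ≤ B := integral_nonneg fun x => sq_nonneg _
  have e1 : ∫ x, |φ x| ^ q = ∫ x, (φ x) ^ (2 * (k + 1)) := by
    refine integral_congr_ae (Eventually.of_forall fun x => ?_)
    simp only
    rw [hq, show 2 * ((k : ℝ) + 1) = ((2 * (k + 1) : ℕ) : ℝ) by push_cast; ring,
      Real.rpow_natCast, pow_mul, sq_abs, ← pow_mul]
  rw [e1] at h1
  have hD0 : 0 ≤ ∫ x, (φ x) ^ (2 * (k + 1)) := integral_nonneg fun x => by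
    rw [pow_mul]; positivity
  have hb0 : 0 ≤ (p - 2) / (q - 2) := div_nonneg (by linarith) (by linarith)
  have h4 : (∫ x, (φ x) ^ (2 * (k + 1))) ^ ((p - 2) / (q - 2)) ≤
      C ^ ((p - 2) / (q - 2)) * A ^ ((p - 2) / (q - 2)) * B ^ ((p - 2) / 2) := by
    calc (∫ x, (φ x) ^ (2 * (k + 1))) ^ ((p - 2) / (q - 2))
        ≤ (C * A * B ^ k) ^ ((p - 2) / (q - 2)) := Real.rpow_le_rpow hD0 h2 hb0
      _ = C ^ ((p - 2) / (q - 2)) * A ^ ((p - 2) / (q - 2)) * (B ^ k) ^ ((p - 2) / (q - 2)) := by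
          rw [Real.mul_rpow (by positivity) (by positivity), Real.mul_rpow hC.le hA0]
      _ = _ := by
          rw [← Real.rpow_natCast B k, ← Real.rpow_mul hB0]
          congr 2
          rw [hq]
          have : (2 : ℝ) * ((k : ℝ) + 1) - 2 = 2 * k := by ring
          rw [this]
          field_simp
  have e5 : (q - p) / (q - 2) + (p - 2) / (q - 2) = 1 := by
    have : q - 2 ≠ 0 := by linarith
    field_simp
    ring
  have e6 : sg 2 p / 2 = 1 := by unfold sg; norm_num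
  have e7 : (p - sg 2 p) / 2 = (p - 2) / 2 := by unfold sg; norm_num
  have ha0 : 0 ≤ (q - p) / (q - 2) := div_nonneg (by linarith) (by linarith)
  rw [e6, e7, Real.rpow_one]
  calc ∫ x, |φ x| ^ p
      ≤ A ^ ((q - p) / (q - 2)) * (∫ x, (φ x) ^ (2 * (k + 1))) ^ ((p - 2) / (q - 2)) := h1
    _ ≤ A ^ ((q - p) / (q - 2)) *
        (C ^ ((p - 2) / (q - 2)) * A ^ ((p - 2) / (q - 2)) * B ^ ((p - 2) / 2)) :=
        mul_le_mul_of_nonneg_left h4 (by positivity)
    _ = C ^ ((p - 2) / (q - 2)) * (A ^ ((q - p) / (q - 2)) * A ^ ((p - 2) / (q - 2))) *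
        B ^ ((p - 2) / 2) := by ring
    _ = _ := by rw [← Real.rpow_add_of_nonneg hA0 ha0 hb0, e5, Real.rpow_one]

/-- the Gagliardo-Nirenberg inequality for test functions -/
theorem gn_test (N : ℕ) (hN : 2 ≤ N) (p : ℝ) (hp : 2 < p) (hp2 : p * ((N : ℝ) - 2) < 2 * N) :
    ∃ C : ℝ, 0 < C ∧ ∀ φ : E N → ℝ, IsTest φ → ∫ x, |φ x| ^ p ≤
      C * (∫ x, (φ x) ^ 2) ^ (sg N p / 2) * (∫ x, ‖gradient φ x‖ ^ 2) ^ ((p - sg N p) / 2) := by
  rcases Nat.lt_or_ge 2 N with h | h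
  · exact gn_ge3 N h p hp hp2
  · have : N = 2 := le_antisymm h hN
    subst this
    exact gn_two p hp

theorem sg_pos {N : ℕ} {p : ℝ} (hp2 : p * ((N : ℝ) - 2) < 2 * N) : 0 < sg N p := by
  unfold sg; linarith

theorem sg_lt {N : ℕ} (hN : 2 ≤ N) {p : ℝ} (hp : 2 < p) : sg N p < p := by
  have : (2 : ℝ) ≤ N := by exact_mod_cast hN
  unfold sg; nlinarith

end Pool.Agent.Q62.PC
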