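import Pool.Agent.Q62.PC.GN

/-! The space `H¹(ℝᴺ)`. -/

open MeasureTheory Set Filter Topology
open scoped ENNReal NNReal ContDiff

namespace Pool.Agent.Q62.PC

theorem int_sq {N : ℕ} {F : Type*} [NormedAddCommGroup F] {f : E N → F} (hf : MemLp f 2 volume) :
    ∫ x, ‖f x‖ ^ 2 = (eLpNorm f 2 volume).toReal ^ 2 := by
  have e := hf.eLpNorm_eq_integral_rpow_norm (by norm_num) (by norm_num)
  have h0 : 0 ≤ ∫ x, ‖f x‖ ^ 2 := integral_nonneg fun x => sq_nonneg _
  have e2 : (∫ x, ‖f x‖ ^ (2 : ℝ≥0∞).toReal) = ∫ x, ‖f x‖ ^ 2 := by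
    refine integral_congr_ae (Eventually.of_forall fun x => ?_)
    norm_num
  rw [e2] at e
  rw [e, ENNReal.toReal_ofReal (by positivity), ← Real.rpow_natCast, ← Real.rpow_mul h0]
  norm_num

theorem sqlim {N : ℕ} {F : Type*} [NormedAddCommGroup F] {f : ℕ → E N → F} {f0 : E N → F}
    (hf : ∀ k, MemLp (f k) 2 volume) (h0 : MemLp f0 2 volume)
    (h : Tendsto (fun k => eLpNorm (f k - f0) 2 volume) atTop (𝓝 0)) :
    Tendsto (fun k => ∫ x, ‖f k x‖ ^ 2) atTop (𝓝 (∫ x, ‖f0 x‖ ^ 2)) := by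
  have h1 := (Lp.tendsto_Lp_iff_tendsto_eLpNorm'' f hf f0 h0).2 h
  have h2 := h1.norm
  have e : ∀ (w : E N → F) (hw : MemLp w 2 (volume : Measure (E N))),
      ‖hw.toLp w‖ ^ 2 = ∫ x, ‖w x‖ ^ 2 := by
    intro w hw
    rw [Lp.norm_toLp, int_sq hw]
  have h3 := h2.pow 2
  simp only [e] at h3
  exact h3

theorem IsTest.memLp {N : ℕ} {φ : E N → ℝ} (h : IsTest φ) (r : ℝ≥0∞) : MemLp φ r volume :=
  h.1.continuous.memLp_of_hasCompactSupport h.2

theorem IsTest.grad_memLp {N : ℕ} {φ : E N → ℝ} (h : IsTest φ) (r : ℝ≥0∞) :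
    MemLp (gradient φ) r volume :=
  (grad_cont h.c1).memLp_of_hasCompactSupport (grad_supp h.2)

theorem InH1.of_test {N : ℕ} {φ : E N → ℝ} (h : IsTest φ) : InH1 φ (gradient φ) :=
  ⟨h.memLp 2, h.grad_memLp 2, fun _ => φ, fun _ => h, by simp, by simp⟩

theorem lim_add {N : ℕ} {F : Type*} [NormedAddCommGroup F] {f g : ℕ → E N → F} {f0 g0 : E N → F}
    (hf : ∀ k, MemLp (f k) 2 volume) (hf0 : MemLp f0 2 volume)
    (hg : ∀ k, MemLp (g k) 2 volume) (hg0 : MemLp g0 2 volume)
    (h1 : Tendsto (fun k => eLpNorm (f k - f0) 2 volume) atTop (𝓝 0))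
    (h2 : Tendsto (fun k => eLpNorm (g k - g0) 2 volume) atTop (𝓝 0)) :
    Tendsto (fun k => eLpNorm ((f k + g k) - (f0 + g0)) 2 volume) atTop (𝓝 0) := by
  have h3 := h1.add h2
  rw [add_zero] at h3
  refine tendsto_of_tendsto_of_tendsto_of_le_of_le tendsto_const_nhds h3 (fun k => bot_le)
    (fun k => ?_)
  have e : (f k + g k) - (f0 + g0) = (f k - f0) + (g k - g0) := by abel
  simp only [e]
  exact eLpNorm_add_le ((hf k).sub hf0).aestronglyMeasurable ((hg k).sub hg0).aestronglyMeasurable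
    (by norm_num)

theorem lim_le {N : ℕ} {F G : Type*} [NormedAddCommGroup F] [NormedAddCommGroup G]
    {f : ℕ → E N → F} {g : ℕ → E N → G} (M : ℝ)
    (hle : ∀ k x, ‖f k x‖ ≤ M * ‖g k x‖)
    (h : Tendsto (fun k => eLpNorm (g k) 2 volume) atTop (𝓝 0)) :
    Tendsto (fun k => eLpNorm (f k) 2 volume) atTop (𝓝 0) := by
  have h3 : Tendsto (fun k => ENNReal.ofReal M * eLpNorm (g k) 2 volume) atTop (𝓝 0) := by
    have := ENNReal.Tendsto.const_mul (a := ENNReal.ofReal M) h (Or.inr ENNReal.ofReal_ne_top)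
    rwa [mul_zero] at this
  refine tendsto_of_tendsto_of_tendsto_of_le_of_le tendsto_const_nhds h3 (fun k => bot_le)
    (fun k => ?_)
  exact eLpNorm_le_mul_eLpNorm_of_ae_le_mul (Eventually.of_forall (hle k)) 2

theorem grad_add {N : ℕ} {φ ψ : E N → ℝ} (h1 : ContDiff ℝ 1 φ) (h2 : ContDiff ℝ 1 ψ) :
    gradient (φ + ψ) = gradient φ + gradient ψ := by
  funext x
  have d1 : DifferentiableAt ℝ φ x := (h1.differentiable (by norm_num)).differentiableAt
  have d2 : DifferentiableAt ℝ ψ x := (h2.differentiable (by norm_num)).differentiableAt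
  simp only [gradient, Pi.add_apply]
  rw [fderiv_add d1 d2, map_add]

theorem grad_smul {N : ℕ} {φ : E N → ℝ} (h1 : ContDiff ℝ 1 φ) (c : ℝ) :
    gradient (fun x => c * φ x) = fun x => c • gradient φ x := by
  funext x
  have d1 : DifferentiableAt ℝ φ x := (h1.differentiable (by norm_num)).differentiableAt
  simp only [gradient]
  rw [fderiv_const_mul d1]
  simp

theorem grad_mul {N : ℕ} {φ ψ : E N → ℝ} (h1 : ContDiff ℝ 1 φ) (h2 : ContDiff ℝ 1 ψ) :
    gradient (fun x => φ x * ψ x) = fun x => φ x • gradient ψ x + ψ x • gradient φ x := by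
  funext x
  have d1 : DifferentiableAt ℝ φ x := (h1.differentiable (by norm_num)).differentiableAt
  have d2 : DifferentiableAt ℝ ψ x := (h2.differentiable (by norm_num)).differentiableAt
  simp only [gradient]
  rw [fderiv_fun_mul d1 d2]
  simp

theorem InH1.add {N : ℕ} {u v : E N → ℝ} {g h : E N → E N} (hu : InH1 u g) (hv : InH1 v h) :
    InH1 (u + v) (g + h) := by
  obtain ⟨u1, u2, φ, u3, u4, u5⟩ := hu
  obtain ⟨v1, v2, ψ, v3, v4, v5⟩ := hv
  refine ⟨u1.add v1, u2.add v2, fun k => φ k + ψ k, fun k => ⟨(u3 k).1.add (v3 k).1,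
    (u3 k).2.add (v3 k).2⟩, lim_add (fun k => (u3 k).memLp 2) u1 (fun k => (v3 k).memLp 2) v1 u4 v4,
    ?_⟩
  have e : ∀ k, gradient (φ k + ψ k) = gradient (φ k) + gradient (ψ k) :=
    fun k => grad_add (u3 k).c1 (v3 k).c1
  simp only [e]
  exact lim_add (fun k => (u3 k).grad_memLp 2) u2 (fun k => (v3 k).grad_memLp 2) v2 u5 v5

theorem InH1.smul {N : ℕ} {u : E N → ℝ} {g : E N → E N} (hu : InH1 u g) (c : ℝ) :
    InH1 (fun x => c * u x) (fun x => c • g x) := by
  obtain ⟨u1, u2, φ, u3, u4, u5⟩ := hu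
  refine ⟨u1.const_mul c, u2.const_smul c, fun k x => c * φ k x,
    fun k => ⟨contDiff_const.mul (u3 k).1, (u3 k).2.mul_left⟩, ?_, ?_⟩
  · refine lim_le |c| (fun k x => ?_) u4
    simp only [Pi.sub_apply]
    rw [← mul_sub, norm_mul, Real.norm_eq_abs]
  · have e : ∀ k, gradient (fun x => c * φ k x) = fun x => c • gradient (φ k) x :=
      fun k => grad_smul (u3 k).c1 c
    simp only [e]
    refine lim_le |c| (fun k x => ?_) u5
    simp only [Pi.sub_apply]
    rw [← smul_sub, norm_smul, Real.norm_eq_abs]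

theorem InH1.sub {N : ℕ} {u v : E N → ℝ} {g h : E N → E N} (hu : InH1 u g) (hv : InH1 v h) :
    InH1 (fun x => u x - v x) (fun x => g x - h x) := by
  have h1 := hu.add (hv.smul (-1))
  have e1 : (u + fun x => -1 * v x) = fun x => u x - v x := by
    funext x; simp only [Pi.add_apply]; ring
  have e2 : (g + fun x => (-1 : ℝ) • h x) = fun x => g x - h x := by
    funext x; simp only [Pi.add_apply, neg_smul, one_smul]; abel
  rwa [e1, e2] at h1

/-- multiplication by a smooth function -/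
theorem InH1.mul {N : ℕ} {u : E N → ℝ} {g : E N → E N} (hu : InH1 u g) {χ : E N → ℝ}
    (hχ : ContDiff ℝ ∞ χ) {M K : ℝ} (h1 : ∀ x, |χ x| ≤ M) (h2 : ∀ x, ‖gradient χ x‖ ≤ K) :
    InH1 (fun x => χ x * u x) (fun x => χ x • g x + u x • gradient χ x) := by
  obtain ⟨u1, u2, φ, u3, u4, u5⟩ := hu
  have hχ1 : ContDiff ℝ 1 χ := hχ.of_le (by norm_cast)
  have hM : 0 ≤ M := (abs_nonneg _).trans (h1 0)
  have hK : 0 ≤ K := (norm_nonneg _).trans (h2 0)
  have m1 : ∀ w : E N → ℝ, MemLp w 2 (volume : Measure (E N)) →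
      MemLp (fun x => χ x * w x) 2 (volume : Measure (E N)) := by
    intro w hw
    refine (hw.const_mul M).mono (hχ.continuous.aestronglyMeasurable.mul hw.1)
      (Eventually.of_forall fun x => ?_)
    rw [norm_mul, norm_mul, Real.norm_eq_abs, Real.norm_eq_abs M, abs_of_nonneg hM]
    exact mul_le_mul_of_nonneg_right (h1 x) (norm_nonneg _)
  have m2 : ∀ w : E N → E N, MemLp w 2 (volume : Measure (E N)) →
      MemLp (fun x => χ x • w x) 2 (volume : Measure (E N)) := by
    intro w hw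
    refine (hw.const_smul M).mono (hχ.continuous.aestronglyMeasurable.smul hw.1)
      (Eventually.of_forall fun x => ?_)
    simp only [Pi.smul_apply]
    rw [norm_smul, norm_smul, Real.norm_eq_abs, Real.norm_eq_abs M, abs_of_nonneg hM]
    exact mul_le_mul_of_nonneg_right (h1 x) (norm_nonneg _)
  have m3 : ∀ w : E N → ℝ, MemLp w 2 (volume : Measure (E N)) →
      MemLp (fun x => w x • gradient χ x) 2 (volume : Measure (E N)) := by
    intro w hw
    refine (hw.const_mul K).mono (hw.1.smul (grad_cont hχ1).aestronglyMeasurable)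
      (Eventually.of_forall fun x => ?_)
    rw [norm_smul, norm_mul, Real.norm_eq_abs K, abs_of_nonneg hK, mul_comm]
    exact mul_le_mul_of_nonneg_right (h2 x) (norm_nonneg _)
  refine ⟨m1 u u1, (m2 g u2).add (m3 u u1), fun k x => χ x * φ k x,
    fun k => ⟨hχ.mul (u3 k).1, (u3 k).2.mul_left⟩, ?_, ?_⟩
  · refine lim_le M (fun k x => ?_) u4
    simp only [Pi.sub_apply]
    rw [← mul_sub, norm_mul]
    exact mul_le_mul_of_nonneg_right (h1 x) (norm_nonneg _)
  · have e : ∀ k, gradient (fun x => χ x * φ k x) =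
        (fun x => χ x • gradient (φ k) x) + fun x => φ k x • gradient χ x :=
      fun k => grad_mul hχ1 (u3 k).c1
    have e2 : (fun x => χ x • g x + u x • gradient χ x) =
        (fun x => χ x • g x) + fun x => u x • gradient χ x := rfl
    simp only [e, e2]
    refine lim_add (fun k => m2 _ ((u3 k).grad_memLp 2)) (m2 g u2) (fun k => m3 _ ((u3 k).memLp 2))
      (m3 u u1) ?_ ?_
    · refine lim_le M (fun k x => ?_) u5
      simp only [Pi.sub_apply]
      rw [← smul_sub, norm_smul]
      exact mul_le_mul_of_nonneg_right (h1 x) (norm_nonneg _)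
    · refine lim_le K (fun k x => ?_) u4
      simp only [Pi.sub_apply]
      rw [← sub_smul, norm_smul, mul_comm]
      exact mul_le_mul_of_nonneg_right (h2 x) (norm_nonneg _)

theorem InH1.translate {N : ℕ} {u : E N → ℝ} {g : E N → E N} (hu : InH1 u g) (h : E N) :
    InH1 (fun x => u (x + h)) (fun x => g (x + h)) := by
  obtain ⟨u1, u2, φ, u3, u4, u5⟩ := hu
  have mp : MeasurePreserving (fun x : E N => x + h) volume volume :=
    measurePreserving_add_right volume h
  refine ⟨u1.comp_measurePreserving mp, u2.comp_measurePreserving mp, fun k x => φ k (x + h),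
    fun k => ⟨(u3 k).1.comp (contDiff_id.add contDiff_const), ?_⟩, ?_, ?_⟩
  · exact (u3 k).2.comp_homeomorph (Homeomorph.addRight h)
  · have e : ∀ k, eLpNorm ((fun x => φ k (x + h)) - fun x => u (x + h)) 2 volume
        = eLpNorm (φ k - u) 2 volume := by
      intro k
      have h1 := eLpNorm_comp_measurePreserving (p := 2) (g := φ k - u)
        (((u3 k).memLp 2).sub u1).aestronglyMeasurable mp
      have h2 : ((fun x => φ k (x + h)) - fun x => u (x + h)) =
          (φ k - u) ∘ fun x : E N => x + h := rfl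
      rw [h2, h1]
    simp only [e]
    exact u4
  · have e0 : ∀ k, gradient (fun x => φ k (x + h)) = fun x => gradient (φ k) (x + h) := by
      intro k
      funext x
      simp only [gradient]
      rw [fderiv_comp_add_right]
    have e : ∀ k, eLpNorm (gradient (fun x => φ k (x + h)) - fun x => g (x + h)) 2 volume
        = eLpNorm (gradient (φ k) - g) 2 volume := by
      intro k
      have h1 := eLpNorm_comp_measurePreserving (p := 2) (g := gradient (φ k) - g)
        (((u3 k).grad_memLp 2).sub u2).aestronglyMeasurable mp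
      have h2 : ((fun x => gradient (φ k) (x + h)) - fun x => g (x + h)) =
          (gradient (φ k) - g) ∘ fun x : E N => x + h := rfl
      rw [e0, h2, h1]
    simp only [e]
    exact u5

end Pool.Agent.Q62.PC
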