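import Pool.Agent.Q62.PC.Least

/-! Interior estimates away from the core (Keller-Osserman). -/

open MeasureTheory Set Filter Topology
open scoped ENNReal NNReal ContDiff

namespace Pool.Agent.Q62.PC

theorem abs_rpow_split {p : ℝ} (hp : 2 < p) (a : ℝ) : |a| ^ (p - 2) * a * a = |a| ^ p := by
  rcases eq_or_ne a 0 with h | h
  · rw [h]; simp [Real.zero_rpow (by linarith : p ≠ 0)]
  · have h1 : 0 < |a| := abs_pos.2 h
    have h2 : |a| ^ p = |a| ^ (p - 2) * |a| ^ 2 := by
      rw [← Real.rpow_natCast |a| 2, ← Real.rpow_add h1]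
      congr 1; push_cast; ring
    rw [h2, sq_abs]; ring

/-- the equation tested with `om u` -/
theorem IsSol.test {N : ℕ} {p ε : ℝ} (hp : 2 < p) {u : E N → ℝ} {g : E N → E N}
    (hu : IsSol p ε u g) {om : E N → ℝ} (hom : ContDiff ℝ ∞ om) {M K : ℝ} (h1 : ∀ x, |om x| ≤ M)
    (h2 : ∀ x, ‖gradient om x‖ ≤ K) :
    ∫ x, (om x * ‖g x‖ ^ 2 + u x * inner ℝ (g x) (gradient om x) + om x * u x ^ 2) =
      ∫ x, Q ε x * (om x * |u x| ^ p) := by
  have h := hu.2 _ _ (hu.1.mul hom h1 h2)
  have e1 : ∀ x, inner ℝ (g x) (om x • g x + u x • gradient om x) + u x * (om x * u x) =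
      om x * ‖g x‖ ^ 2 + u x * inner ℝ (g x) (gradient om x) + om x * u x ^ 2 := by
    intro x
    rw [inner_add_right, inner_smul_right, inner_smul_right, real_inner_self_eq_norm_sq]
    ring
  have e2 : ∀ x, Q ε x * (|u x| ^ (p - 2) * u x) * (om x * u x) = Q ε x * (om x * |u x| ^ p) := by
    intro x
    rw [← abs_rpow_split hp (u x)]
    ring
  simp only [e1, e2] at h
  exact h

theorem young {p A s : ℝ} (hp : 2 < p) (hA : 0 ≤ A) (hs : 0 ≤ s) :
    A * s ≤ 1 / 2 * s ^ (p / 2) + A * (2 * A) ^ (2 / (p - 2)) := by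
  have hp2 : 0 < p - 2 := by linarith
  rcases le_or_gt s ((2 * A) ^ (2 / (p - 2))) with h | h
  · have h1 : A * s ≤ A * (2 * A) ^ (2 / (p - 2)) := mul_le_mul_of_nonneg_left h hA
    have h2 : 0 ≤ s ^ (p / 2) := Real.rpow_nonneg hs _
    linarith
  · have hs0 : 0 < s := lt_of_le_of_lt (by positivity) h
    have h1 : 2 * A ≤ s ^ ((p - 2) / 2) := by
      have h2 := Real.rpow_le_rpow (by positivity) h.le (show 0 ≤ (p - 2) / 2 by linarith)
      rw [← Real.rpow_mul (by positivity)] at h2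
      have : 2 / (p - 2) * ((p - 2) / 2) = 1 := by field_simp
      rwa [this, Real.rpow_one] at h2
    have h3 : s ^ (p / 2) = s * s ^ ((p - 2) / 2) := by
      rw [show p / 2 = 1 + (p - 2) / 2 by ring, Real.rpow_add hs0, Real.rpow_one]
    have h4 : 0 ≤ A * (2 * A) ^ (2 / (p - 2)) := by positivity
    rw [h3]
    nlinarith

/-- pointwise inequality behind the estimate -/
theorem ptwise {p : ℝ} (hp : 2 < p) {m : ℕ} (hm1 : 2 ≤ m) (hm : p ≤ m * (p - 2)) {a s b k A : ℝ}
    (ha0 : 0 ≤ a) (ha1 : a ≤ 1) (_hs : 0 ≤ s) (hb : 0 ≤ b) (_hk : 0 ≤ k)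
    (hA : 2 * m ^ 2 * k ^ 2 ≤ A) :
    1 / 2 * a ^ (2 * m) * (s ^ 2 + b ^ 2 + b ^ p) - A * (2 * A) ^ (2 / (p - 2)) ≤
      a ^ (2 * m) * s ^ 2 - b * (s * (2 * m * a ^ (2 * m - 1) * k)) + a ^ (2 * m) * b ^ 2 +
        a ^ (2 * m) * b ^ p := by
  have hA0 : 0 ≤ A := le_trans (by positivity) hA
  have h1 : b * (s * (2 * m * a ^ (2 * m - 1) * k)) ≤
      1 / 2 * (a ^ m * s) ^ 2 + A * (a ^ (2 * m - 2) * b ^ 2) := by
    have e1 : a ^ (2 * m - 1) = a ^ m * a ^ (m - 1) := by rw [← pow_add]; congr 1; omega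
    have e2 : a ^ (2 * m - 2) = (a ^ (m - 1)) ^ 2 := by rw [← pow_mul]; congr 1; omega
    rw [e1, e2]
    have h2 : 2 * (a ^ m * s) * (2 * m * k * (a ^ (m - 1) * b)) ≤
        (a ^ m * s) ^ 2 + (2 * m * k * (a ^ (m - 1) * b)) ^ 2 :=
      two_mul_le_add_sq _ _
    have h3 : (2 * m ^ 2 * k ^ 2) * ((a ^ (m - 1)) ^ 2 * b ^ 2) ≤ A * ((a ^ (m - 1)) ^ 2 * b ^ 2) :=
      mul_le_mul_of_nonneg_right hA (by positivity)
    nlinarith
  have h4 : A * (a ^ (2 * m - 2) * b ^ 2) ≤
      1 / 2 * (a ^ (2 * m - 2) * b ^ 2) ^ (p / 2) + A * (2 * A) ^ (2 / (p - 2)) :=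
    young hp hA0 (by positivity)
  have h5 : (a ^ (2 * m - 2) * b ^ 2) ^ (p / 2) ≤ a ^ (2 * m) * b ^ p := by
    rw [Real.mul_rpow (by positivity) (by positivity)]
    have e3 : (b ^ 2) ^ (p / 2) = b ^ p := by
      rw [← Real.rpow_natCast b 2, ← Real.rpow_mul hb]
      congr 1; push_cast; ring
    have e4 : (a ^ (2 * m - 2)) ^ (p / 2) ≤ a ^ (2 * m) := by
      rcases ha0.eq_or_lt with h0 | h0
      · rw [← h0, zero_pow (by omega), Real.zero_rpow (by linarith), zero_pow (by omega)]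
      · rw [← Real.rpow_natCast, ← Real.rpow_mul ha0, ← Real.rpow_natCast a (2 * m)]
        refine Real.rpow_le_rpow_of_exponent_ge h0 ha1 ?_
        have : ((2 * m - 2 : ℕ) : ℝ) = 2 * m - 2 := by
          rw [Nat.cast_sub (by omega)]; push_cast; ring
        rw [this]
        push_cast
        nlinarith
    rw [e3]
    exact mul_le_mul_of_nonneg_right e4 (by positivity)
  have h6 : 0 ≤ a ^ (2 * m) * b ^ 2 := by positivity
  have e5 : (a ^ m * s) ^ 2 = a ^ (2 * m) * s ^ 2 := by rw [mul_pow, ← pow_mul, mul_comm m 2]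
  rw [e5] at h1
  nlinarith

/-- the annulus -/
def ann {N : ℕ} (y : E N) (r : ℝ) : Set (E N) := Metric.closedBall y r \ Metric.ball y (r / 2)

theorem ko (N : ℕ) (p : ℝ) (hp : 2 < p) : ∃ C : ℝ, 0 < C ∧
    ∀ ε r : ℝ, 0 < ε → 4 * ε ≤ r → r ≤ 1 / 2 → ∀ (u : E N → ℝ) (g : E N → E N), IsSol p ε u g →
      Integrable (fun x => |u x| ^ p) (volume : Measure (E N)) → ∀ z : Fin N → ℤ,
      ∫ x in ann (pt z) r, (dens u g x + |u x| ^ p) ≤ C * r ^ ((N : ℝ) - 2 * p / (p - 2)) := by
  have hp2 : 0 < p - 2 := by linarith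
  obtain ⟨m0, hm0⟩ := exists_nat_gt (p / (p - 2))
  set m : ℕ := m0 + 2 with hm
  have hm1 : 2 ≤ m := by omega
  have hmp : p ≤ m * (p - 2) := by
    rw [div_lt_iff₀ hp2] at hm0
    have : (m : ℝ) = m0 + 2 := by rw [hm]; push_cast; ring
    rw [this]; nlinarith
  let big : ContDiffBump (0 : E N) := ⟨1, 3 / 2, by norm_num, by norm_num⟩
  let sm : ContDiffBump (0 : E N) := ⟨1 / 4, 1 / 2, by norm_num, by norm_num⟩
  set η : E N → ℝ := fun x => big x * (1 - sm x) with hη
  have hηC : ContDiff ℝ ∞ η := big.contDiff.mul (contDiff_const.sub sm.contDiff)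
  have hη01 : ∀ x, 0 ≤ η x ∧ η x ≤ 1 := by
    intro x
    have b0 := big.nonneg (x := x)
    have b1 := big.le_one (x := x)
    have s0 := sm.nonneg (x := x)
    have s1 := sm.le_one (x := x)
    rw [hη]
    constructor
    · exact mul_nonneg b0 (by linarith)
    · simp only; nlinarith
  have hη1 : ∀ x, 1 / 2 ≤ ‖x‖ → ‖x‖ ≤ 1 → η x = 1 := by
    intro x h1 h2
    have hb : big x = 1 := big.one_of_mem_closedBall (by
      rw [mem_closedBall_zero_iff]; exact h2)
    have hs : sm x = 0 := by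
      have : x ∉ Function.support sm := by
        rw [sm.support_eq, mem_ball_zero_iff, not_lt]; exact h1
      simpa using this
    rw [hη]; simp only; rw [hb, hs]; norm_num
  have hη0 : ∀ x, η x ≠ 0 → 1 / 4 < ‖x‖ ∧ ‖x‖ < 3 / 2 := by
    intro x hx
    rw [hη] at hx
    have h1 := left_ne_zero_of_mul hx
    have h2 := right_ne_zero_of_mul hx
    constructor
    · by_contra hcon
      push Not at hcon
      apply h2
      rw [sm.one_of_mem_closedBall (by rw [mem_closedBall_zero_iff]; exact hcon)]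
      norm_num
    · have : x ∈ Function.support big := h1
      rw [big.support_eq, mem_ball_zero_iff] at this
      exact this
  have hηc : HasCompactSupport η := by
    refine HasCompactSupport.intro (isCompact_closedBall (0 : E N) (3 / 2)) fun x hx => ?_
    by_contra hcon
    exact hx (mem_closedBall_zero_iff.2 (hη0 x hcon).2.le)
  have hηT : IsTest η := ⟨hηC, hηc⟩
  obtain ⟨K, hK⟩ := (grad_cont hηT.c1).bounded_above_of_compact_support (grad_supp hηc)
  have hK0 : 0 ≤ K := (norm_nonneg _).trans (hK 0)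
  set A1 : ℝ := 2 * m ^ 2 * K ^ 2 + 1 with hA1
  have hA1p : 0 < A1 := by positivity
  set vol1 : ℝ := (volume (Metric.ball (0 : E N) 1)).toReal with hvol1
  refine ⟨2 * (A1 * (2 * A1) ^ (2 / (p - 2))) * ((3 / 2) ^ N * vol1) + 1, by positivity, ?_⟩
  intro ε r hε hεr hr u g hu hup z
  have hr0 : 0 < r := by linarith
  set y : E N := pt z with hy
  -- the scaled cutoff
  set ζ : E N → ℝ := fun x => η (r⁻¹ • (x - y)) with hζ
  have hζi : ContDiff ℝ ∞ fun x : E N => r⁻¹ • (x - y) := by fun_prop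
  have hζC : ContDiff ℝ ∞ ζ := hηC.comp hζi
  have hζd : ∀ x, DifferentiableAt ℝ ζ x := fun x =>
    (hζC.differentiable (by simp)).differentiableAt
  have hζgrad : ∀ x, gradient ζ x = r⁻¹ • gradient η (r⁻¹ • (x - y)) := by
    intro x
    have h0 : HasFDerivAt η (fderiv ℝ η (r⁻¹ • (x - y))) (r⁻¹ • (x - y)) :=
      ((hηC.differentiable (by simp)) _).hasFDerivAt
    have h1 : HasFDerivAt (fun x : E N => r⁻¹ • (x - y)) (r⁻¹ • ContinuousLinearMap.id ℝ (E N)) x :=
      ((hasFDerivAt_id x).sub_const y).const_smul r⁻¹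
    have h2 : HasFDerivAt ζ ((fderiv ℝ η (r⁻¹ • (x - y))).comp
        (r⁻¹ • ContinuousLinearMap.id ℝ (E N))) x :=
      HasFDerivAt.comp (g := η) (f := fun x : E N => r⁻¹ • (x - y)) x h0 h1
    simp only [gradient]
    rw [h2.fderiv]
    simp
  have hζK : ∀ x, ‖gradient ζ x‖ ≤ r⁻¹ * K := by
    intro x
    rw [hζgrad, norm_smul, Real.norm_eq_abs, abs_of_pos (inv_pos.2 hr0)]
    exact mul_le_mul_of_nonneg_left (hK _) (inv_pos.2 hr0).le
  have hζ01 : ∀ x, 0 ≤ ζ x ∧ ζ x ≤ 1 := fun x => hη01 _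
  have hnr : ∀ x, ‖r⁻¹ • (x - y)‖ = dist x y / r := by
    intro x
    rw [norm_smul, Real.norm_eq_abs, abs_of_pos (inv_pos.2 hr0), dist_eq_norm]
    rw [div_eq_inv_mul]
  have hζ1 : ∀ x ∈ ann y r, ζ x = 1 := by
    intro x hx
    obtain ⟨h1, h2⟩ := hx
    rw [Metric.mem_closedBall] at h1
    rw [Metric.mem_ball, not_lt] at h2
    refine hη1 _ ?_ ?_
    · rw [hnr, le_div_iff₀ hr0]; linarith
    · rw [hnr, div_le_one hr0]; exact h1
  have hζ0 : ∀ x, ζ x ≠ 0 → r / 4 < dist x y ∧ dist x y < 3 / 2 * r := by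
    intro x hx
    obtain ⟨h1, h2⟩ := hη0 _ hx
    rw [hnr] at h1 h2
    rw [lt_div_iff₀ hr0] at h1
    rw [div_lt_iff₀ hr0] at h2
    constructor <;> linarith
  have hζcore : ∀ x, ζ x ≠ 0 → x ∉ core N ε := by
    intro x hx hxc
    obtain ⟨h1, h2⟩ := hζ0 x hx
    obtain ⟨w, hw⟩ := mem_iUnion.1 hxc
    rw [Metric.mem_ball] at hw
    rcases eq_or_ne w z with h | h
    · rw [h, ← hy] at hw
      linarith
    · have h3 := dist_pt (N := N) h
      have h4 := dist_triangle (pt w : E N) x (pt z)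
      rw [dist_comm (pt w : E N) x, ← hy] at h4
      rw [← hy] at h3
      linarith
  -- the test function
  set om : E N → ℝ := fun x => ζ x ^ (2 * m) with hom
  have homC : ContDiff ℝ ∞ om := hζC.pow _
  have hom01 : ∀ x, 0 ≤ om x ∧ om x ≤ 1 := fun x =>
    ⟨pow_nonneg (hζ01 x).1 _, pow_le_one₀ (hζ01 x).1 (hζ01 x).2⟩
  have homgrad : ∀ x, gradient om x = (2 * m * ζ x ^ (2 * m - 1)) • gradient ζ x := by
    intro x
    simp only [gradient]
    have h := ((hζd x).hasFDerivAt.pow (2 * m)).fderiv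
    have h' : fderiv ℝ om x = (((2 * m : ℕ) : ℝ) * ζ x ^ (2 * m - 1)) • fderiv ℝ ζ x := by
      simpa using h
    rw [h']
    push_cast
    simp
  have homK : ∀ x, ‖gradient om x‖ ≤ 2 * m * (r⁻¹ * K) := by
    intro x
    rw [homgrad, norm_smul, Real.norm_eq_abs, abs_of_nonneg (by
      have := (hζ01 x).1; positivity)]
    have h1 : ζ x ^ (2 * m - 1) ≤ 1 := pow_le_one₀ (hζ01 x).1 (hζ01 x).2
    have h2 : 0 ≤ ζ x ^ (2 * m - 1) := pow_nonneg (hζ01 x).1 _
    calc 2 * m * ζ x ^ (2 * m - 1) * ‖gradient ζ x‖ ≤ 2 * m * 1 * (r⁻¹ * K) := by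
          have := hζK x
          gcongr
      _ = _ := by ring
  have hT := hu.test hp homC (M := 1) (fun x => by rw [abs_of_nonneg (hom01 x).1]; exact (hom01 x).2)
    homK
  have hQ : ∫ x, Q ε x * (om x * |u x| ^ p) = - ∫ x, om x * |u x| ^ p := by
    rw [← integral_neg]
    refine integral_congr_ae (Eventually.of_forall fun x => ?_)
    simp only
    by_cases h : ζ x = 0
    · have : om x = 0 := by rw [hom]; simp only; rw [h, zero_pow (by omega)]
      rw [this]; ring
    · rw [Q_of_notMem (hζcore x h)]; ring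
  rw [hQ] at hT
  -- integrability
  have i1 : Integrable (fun x => om x * ‖g x‖ ^ 2) (volume : Measure (E N)) := by
    refine (hu.1.2.1.integrable_norm_pow (by norm_num)).bdd_mul (c := 1)
      homC.continuous.aestronglyMeasurable (Eventually.of_forall fun x => ?_)
    rw [Real.norm_eq_abs, abs_of_nonneg (hom01 x).1]; exact (hom01 x).2
  have i2 : Integrable (fun x => om x * u x ^ 2) (volume : Measure (E N)) := by
    refine hu.1.1.integrable_sq.bdd_mul (c := 1)
      homC.continuous.aestronglyMeasurable (Eventually.of_forall fun x => ?_)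
    rw [Real.norm_eq_abs, abs_of_nonneg (hom01 x).1]; exact (hom01 x).2
  have i3 : Integrable (fun x => om x * |u x| ^ p) (volume : Measure (E N)) := by
    refine hup.bdd_mul (c := 1)
      homC.continuous.aestronglyMeasurable (Eventually.of_forall fun x => ?_)
    rw [Real.norm_eq_abs, abs_of_nonneg (hom01 x).1]; exact (hom01 x).2
  have i4 : Integrable (fun x => u x * inner ℝ (g x) (gradient om x))
      (volume : Measure (E N)) := by
    have hb : Integrable (fun x => 2 * m * (r⁻¹ * K) * (‖g x‖ ^ 2 + u x ^ 2))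
        (volume : Measure (E N)) := (int_dens hu.1).const_mul _
    refine hb.mono' ?_ (Eventually.of_forall fun x => ?_)
    · exact hu.1.1.1.mul (hu.1.2.1.1.inner
        (grad_cont (homC.of_le (by norm_cast))).aestronglyMeasurable)
    · rw [norm_mul, Real.norm_eq_abs]
      have h1 := norm_inner_le_norm (𝕜 := ℝ) (g x) (gradient om x)
      have h2 := homK x
      have h3 : ‖inner ℝ (g x) (gradient om x)‖ ≤ ‖g x‖ * (2 * m * (r⁻¹ * K)) :=
        h1.trans (mul_le_mul_of_nonneg_left h2 (norm_nonneg _))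
      have h4 : |u x| * ‖inner ℝ (g x) (gradient om x)‖ ≤ |u x| * (‖g x‖ * (2 * m * (r⁻¹ * K))) :=
        mul_le_mul_of_nonneg_left h3 (abs_nonneg _)
      have h5 : |u x| * ‖g x‖ ≤ ‖g x‖ ^ 2 + u x ^ 2 := by
        have := sq_nonneg (|u x| - ‖g x‖)
        have h6 := sq_abs (u x)
        nlinarith [sq_nonneg (|u x|), sq_nonneg ‖g x‖]
      have h7 : 0 ≤ 2 * m * (r⁻¹ * K) := by positivity
      nlinarith
  set B : Set (E N) := Metric.ball y (3 / 2 * r) with hB
  set A : ℝ := A1 * (r⁻¹) ^ 2 with hAdef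
  set C' : ℝ := A * (2 * A) ^ (2 / (p - 2)) with hC'
  have hApos : 0 < A := by positivity
  have hC'0 : 0 ≤ C' := by positivity
  have hpt : ∀ x, 1 / 2 * (om x * (dens u g x + |u x| ^ p)) - B.indicator (fun _ => C') x ≤
      om x * ‖g x‖ ^ 2 + u x * inner ℝ (g x) (gradient om x) + om x * u x ^ 2 + om x * |u x| ^ p := by
    intro x
    by_cases h : ζ x = 0
    · have h1 : om x = 0 := by rw [hom]; simp only; rw [h, zero_pow (by omega)]
      have h2 : gradient om x = 0 := by
        rw [homgrad, h, zero_pow (by omega)]; simp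
      rw [h1, h2]
      simp only [zero_mul, mul_zero, inner_zero_right, zero_sub, add_zero]
      have : 0 ≤ B.indicator (fun _ => C') x := indicator_nonneg (fun _ _ => hC'0) x
      linarith
    · have hxB : x ∈ B := by rw [hB, Metric.mem_ball]; exact (hζ0 x h).2
      rw [indicator_of_mem hxB]
      have hk := ptwise hp hm1 hmp (a := ζ x) (s := ‖g x‖) (b := |u x|) (k := ‖gradient ζ x‖)
        (A := A) (hζ01 x).1 (hζ01 x).2 (norm_nonneg _) (abs_nonneg _) (norm_nonneg _) (by
          have h1 : ‖gradient ζ x‖ ^ 2 ≤ (r⁻¹ * K) ^ 2 :=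
            pow_le_pow_left₀ (norm_nonneg _) (hζK x) 2
          have h2 : 2 * (m : ℝ) ^ 2 * ‖gradient ζ x‖ ^ 2 ≤ 2 * (m : ℝ) ^ 2 * (r⁻¹ * K) ^ 2 :=
            mul_le_mul_of_nonneg_left h1 (by positivity)
          refine h2.trans ?_
          rw [hAdef, hA1]
          have : 0 ≤ (r⁻¹) ^ 2 := by positivity
          nlinarith)
      have hin : -(|u x| * (‖g x‖ * (2 * m * ζ x ^ (2 * m - 1) * ‖gradient ζ x‖))) ≤
          u x * inner ℝ (g x) (gradient om x) := by
        have h1 : |u x * inner ℝ (g x) (gradient om x)| ≤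
            |u x| * (‖g x‖ * (2 * m * ζ x ^ (2 * m - 1) * ‖gradient ζ x‖)) := by
          rw [abs_mul]
          refine mul_le_mul_of_nonneg_left ?_ (abs_nonneg _)
          refine (abs_real_inner_le_norm _ _).trans ?_
          refine mul_le_mul_of_nonneg_left ?_ (norm_nonneg _)
          rw [homgrad, norm_smul, Real.norm_eq_abs, abs_of_nonneg (by
            have := (hζ01 x).1; positivity)]
        have h2 := neg_abs_le (u x * inner ℝ (g x) (gradient om x))
        linarith
      rw [sq_abs] at hk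
      have e1 : om x = ζ x ^ (2 * m) := rfl
      have e2 : dens u g x = ‖g x‖ ^ 2 + u x ^ 2 := rfl
      rw [e1, e2]
      linarith
  have iden : Integrable (fun x => om x * (dens u g x + |u x| ^ p)) (volume : Measure (E N)) := by
    refine ((int_dens hu.1).add hup).bdd_mul (c := 1)
      homC.continuous.aestronglyMeasurable (Eventually.of_forall fun x => ?_)
    rw [Real.norm_eq_abs, abs_of_nonneg (hom01 x).1]; exact (hom01 x).2
  have hBfin : volume B ≠ ⊤ := measure_ball_lt_top.ne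
  have iB : Integrable (B.indicator fun _ => C') (volume : Measure (E N)) :=
    (integrable_indicator_iff Metric.isOpen_ball.measurableSet).2 (integrableOn_const hBfin)
  have isum : Integrable (fun x => om x * ‖g x‖ ^ 2 + u x * inner ℝ (g x) (gradient om x) +
      om x * u x ^ 2) (volume : Measure (E N)) := (i1.add i4).add i2
  have hmain := integral_mono ((iden.const_mul (1 / 2)).sub iB) (isum.add i3) hpt
  have hl : ∫ x, (1 / 2 * (om x * (dens u g x + |u x| ^ p)) - B.indicator (fun _ => C') x) =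
      1 / 2 * (∫ x, om x * (dens u g x + |u x| ^ p)) - C' * (volume B).toReal := by
    rw [integral_sub (iden.const_mul (1 / 2)) iB, integral_const_mul,
      integral_indicator Metric.isOpen_ball.measurableSet, setIntegral_const, smul_eq_mul,
      Measure.real, mul_comm C']
  have hr' : ∫ x, (om x * ‖g x‖ ^ 2 + u x * inner ℝ (g x) (gradient om x) + om x * u x ^ 2 +
      om x * |u x| ^ p) = 0 := by
    rw [integral_add isum i3, hT]; ring
  have hmain2 : 1 / 2 * (∫ x, om x * (dens u g x + |u x| ^ p)) - C' * (volume B).toReal ≤ 0 := by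
    rw [← hl, ← hr']
    exact hmain
  have hvolB : (volume B).toReal = r ^ N * ((3 / 2) ^ N * vol1) := by
    rw [hB, Measure.addHaar_ball_of_pos volume y (by positivity : (0 : ℝ) < 3 / 2 * r),
      finrank_euclideanSpace, Fintype.card_fin, ENNReal.toReal_mul,
      ENNReal.toReal_ofReal (by positivity), ← hvol1, mul_pow]
    ring
  have hC'eq : C' * (volume B).toReal =
      (A1 * (2 * A1) ^ (2 / (p - 2))) * ((3 / 2) ^ N * vol1) * r ^ ((N : ℝ) - 2 * p / (p - 2)) := by
    rw [hvolB, hC', hAdef]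
    have e1 : (2 * (A1 * (r⁻¹) ^ 2)) ^ (2 / (p - 2)) =
        (2 * A1) ^ (2 / (p - 2)) * r ^ (-(4 / (p - 2))) := by
      rw [← mul_assoc, Real.mul_rpow (by positivity) (by positivity)]
      congr 1
      rw [← Real.rpow_natCast, ← Real.rpow_mul (inv_pos.2 hr0).le, Real.inv_rpow hr0.le,
        ← Real.rpow_neg hr0.le]
      congr 1
      push_cast; ring
    have e2 : (r⁻¹) ^ 2 = r ^ (-2 : ℝ) := by
      rw [Real.rpow_neg hr0.le, inv_pow]
      norm_num
    have e3 : r ^ ((N : ℝ) - 2 * p / (p - 2)) = r ^ (-2 : ℝ) * r ^ (-(4 / (p - 2))) * r ^ N := by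
      rw [← Real.rpow_natCast r N, ← Real.rpow_add hr0, ← Real.rpow_add hr0]
      congr 1
      field_simp; ring
    rw [e1, e2, e3]
    ring
  have hann : ∫ x in ann y r, (dens u g x + |u x| ^ p) ≤
      ∫ x, om x * (dens u g x + |u x| ^ p) := by
    have hm' : MeasurableSet (ann y r) :=
      Metric.isClosed_closedBall.measurableSet.diff Metric.isOpen_ball.measurableSet
    have e : ∫ x in ann y r, (dens u g x + |u x| ^ p) =
        ∫ x in ann y r, om x * (dens u g x + |u x| ^ p) := by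
      refine setIntegral_congr_fun hm' fun x hx => ?_
      have : om x = 1 := by rw [hom]; simp only; rw [hζ1 x hx, one_pow]
      simp only [this, one_mul]
    rw [e]
    refine setIntegral_le_integral iden (Eventually.of_forall fun x => ?_)
    exact mul_nonneg (hom01 x).1 (add_nonneg (dens_nonneg u g x) (by positivity))
  have hrp : 0 < r ^ ((N : ℝ) - 2 * p / (p - 2)) := Real.rpow_pos_of_pos hr0 _
  rw [hC'eq] at hmain2
  nlinarith

end Pool.Agent.Q62.PC
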