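import Pool.Agent.Q62.PC.Core

/-! Least energy solutions: the variational inequality and the upper bound of the energy. -/

open MeasureTheory Set Filter Topology
open scoped ENNReal NNReal ContDiff

namespace Pool.Agent.Q62.PC

theorem int_dens {N : ℕ} {u : E N → ℝ} {g : E N → E N} (hu : InH1 u g) :
    Integrable (dens u g) (volume : Measure (E N)) :=
  (hu.2.1.integrable_norm_pow (by norm_num)).add hu.1.integrable_sq

theorem dens_nonneg {N : ℕ} (u : E N → ℝ) (g : E N → E N) (x : E N) : 0 ≤ dens u g x := by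
  unfold dens; positivity

theorem pos_of_ne {N : ℕ} {u : E N → ℝ} {g : E N → E N} (hu : InH1 u g)
    (h0 : ¬ u =ᵐ[volume] 0) : 0 < ∫ x, dens u g x := by
  refine lt_of_le_of_ne (integral_nonneg (dens_nonneg u g)) fun h => h0 ?_
  have h1 := (integral_eq_zero_iff_of_nonneg (dens_nonneg u g) (int_dens hu)).1 h.symm
  filter_upwards [h1] with x hx
  simp only [dens, Pi.zero_apply] at hx ⊢
  have h2 : 0 ≤ ‖g x‖ ^ 2 := sq_nonneg _
  have h3 : 0 ≤ u x ^ 2 := sq_nonneg _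
  have : u x ^ 2 = 0 := by linarith
  exact pow_eq_zero_iff (by norm_num) |>.1 this

theorem dens_smul {N : ℕ} (t : ℝ) (u : E N → ℝ) (g : E N → E N) :
    ∫ x, dens (fun x => t * u x) (fun x => t • g x) x = t ^ 2 * ∫ x, dens u g x := by
  rw [← integral_const_mul]
  refine integral_congr_ae (Eventually.of_forall fun x => ?_)
  simp only [dens]
  rw [norm_smul, mul_pow, Real.norm_eq_abs, sq_abs]
  ring

theorem Psi_smul {N : ℕ} (p ε : ℝ) (t : ℝ) (ht : 0 < t) (u : E N → ℝ) :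
    ∫ x, Q ε x * |t * u x| ^ p = t ^ p * ∫ x, Q ε x * |u x| ^ p := by
  rw [← integral_const_mul]
  refine integral_congr_ae (Eventually.of_forall fun x => ?_)
  simp only
  rw [abs_mul, abs_of_pos ht, Real.mul_rpow ht.le (abs_nonneg _)]
  ring

/-- the variational inequality -/
theorem IsLeast.key {N : ℕ} {p ε : ℝ} (hp : 2 < p) {u : E N → ℝ} {g : E N → E N}
    (hu : IsLeast p ε u g) {v : E N → ℝ} {h : E N → E N} (hv : InH1 v h) :
    (∫ x, dens u g x) ^ ((p - 2) / 2) * (∫ x, Q ε x * |v x| ^ p) ≤ (∫ x, dens v h x) ^ (p / 2) := by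
  have hE : 0 < ∫ x, dens u g x := pos_of_ne hu.1.1 hu.2.1.2.1
  have hD0 : 0 ≤ ∫ x, dens v h x := integral_nonneg (dens_nonneg v h)
  rcases le_or_gt (∫ x, Q ε x * |v x| ^ p) 0 with hneg | hpos
  · refine (mul_nonpos_of_nonneg_of_nonpos (by positivity) hneg).trans (by positivity)
  have hv0 : ¬ v =ᵐ[volume] 0 := by
    intro h0
    have : ∫ x, Q ε x * |v x| ^ p = 0 := by
      have e : (fun x => Q ε x * |v x| ^ p) =ᵐ[volume] fun _ => (0 : ℝ) := by
        filter_upwards [h0] with x hx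
        rw [hx]
        simp [Real.zero_rpow (by linarith : p ≠ 0)]
      rw [integral_congr_ae e]; simp
    linarith
  have hD : 0 < ∫ x, dens v h x := pos_of_ne hv hv0
  set Nv : ℝ := ∫ x, dens v h x with hNv
  set Ψ : ℝ := ∫ x, Q ε x * |v x| ^ p with hΨ
  have hr : 0 < Nv / Ψ := div_pos hD hpos
  set t : ℝ := (Nv / Ψ) ^ (1 / (p - 2)) with ht
  have htp : 0 < t := Real.rpow_pos_of_pos hr _
  have hp2 : p - 2 ≠ 0 := by linarith
  have ht2 : t ^ (p - 2) = Nv / Ψ := by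
    rw [ht, ← Real.rpow_mul hr.le, one_div, inv_mul_cancel₀ hp2, Real.rpow_one]
  have htp' : t ^ p = t ^ 2 * (Nv / Ψ) := by
    rw [← ht2, ← Real.rpow_natCast t 2, ← Real.rpow_add htp]
    congr 1; push_cast; ring
  have hN : t ^ p * Ψ = t ^ 2 * Nv := by rw [htp']; field_simp
  have hneh : InNehari p ε (fun x => t * v x) (fun x => t • h x) := by
    refine ⟨hv.smul t, ?_, ?_⟩
    · intro h0
      apply hv0
      filter_upwards [h0] with x hx
      exact (mul_eq_zero.1 hx).resolve_left htp.ne'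
    · rw [dens_smul, Psi_smul p ε t htp, ← hNv, ← hΨ, hN]
  have hmin := hu.2.2 _ _ hneh
  unfold J at hmin
  rw [dens_smul, Psi_smul p ε t htp, ← hNv, ← hΨ, hN, ← hu.2.1.2.2] at hmin
  set A : ℝ := ∫ x, dens u g x with hA
  have hc : 0 < 1 / 2 - 1 / p := by
    have : 1 / p < 1 / 2 := one_div_lt_one_div_of_lt (by norm_num) hp
    linarith
  have hAle : A ≤ t ^ 2 * Nv := by
    have h1 : (1 / 2 - 1 / p) * A ≤ (1 / 2 - 1 / p) * (t ^ 2 * Nv) := by linarith
    exact le_of_mul_le_mul_left h1 hc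
  have h2 : A ^ ((p - 2) / 2) ≤ (t ^ 2 * Nv) ^ ((p - 2) / 2) :=
    Real.rpow_le_rpow hE.le hAle (by linarith)
  have h3 : (t ^ 2 * Nv) ^ ((p - 2) / 2) = Nv / Ψ * Nv ^ ((p - 2) / 2) := by
    rw [Real.mul_rpow (by positivity) hD.le, ← Real.rpow_natCast t 2, ← Real.rpow_mul htp.le]
    have : ((2 : ℕ) : ℝ) * ((p - 2) / 2) = p - 2 := by push_cast; ring
    rw [this, ht2]
  have h4 : Nv ^ (p / 2) = Nv * Nv ^ ((p - 2) / 2) := by
    rw [show p / 2 = 1 + (p - 2) / 2 by ring, Real.rpow_add hD, Real.rpow_one]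
  rw [h3] at h2
  rw [h4]
  calc A ^ ((p - 2) / 2) * Ψ ≤ Nv / Ψ * Nv ^ ((p - 2) / 2) * Ψ :=
        mul_le_mul_of_nonneg_right h2 hpos.le
    _ = _ := by field_simp

theorem dist_pt {N : ℕ} {z w : Fin N → ℤ} (h : z ≠ w) : 1 ≤ dist (pt z : E N) (pt w) := by
  obtain ⟨i, hi⟩ : ∃ i, z i ≠ w i := by
    by_contra hcon
    push Not at hcon
    exact h (funext hcon)
  have h1 : (1 : ℝ) ≤ |(z i : ℝ) - w i| := by
    have : (1 : ℤ) ≤ |z i - w i| := Int.one_le_abs (sub_ne_zero.2 hi)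
    exact_mod_cast this
  have h2 : |(z i : ℝ) - w i| ≤ dist (pt z : E N) (pt w) := by
    rw [dist_eq_norm]
    have h3 := PiLp.norm_apply_le (pt z - pt w : E N) i
    simpa [pt, Real.norm_eq_abs] using h3
  linarith

theorem Q_of_mem {N : ℕ} {ε : ℝ} {x : E N} (h : x ∈ core N ε) : Q ε x = 1 := by
  unfold Q; rw [if_pos h]

theorem Q_of_notMem {N : ℕ} {ε : ℝ} {x : E N} (h : x ∉ core N ε) : Q ε x = -1 := by
  unfold Q; rw [if_neg h]

theorem ball_sub_core {N : ℕ} (ε : ℝ) (z : Fin N → ℤ) : Metric.ball (pt z) ε ⊆ core N ε :=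
  subset_iUnion (fun z : Fin N → ℤ => Metric.ball (pt z : E N) ε) z

theorem core_meas (N : ℕ) (ε : ℝ) : MeasurableSet (core N ε) :=
  MeasurableSet.iUnion fun _ => Metric.isOpen_ball.measurableSet

/-- upper bound of the energy -/
theorem upper (N : ℕ) (p : ℝ) (hp : 2 < p) :
    ∃ C : ℝ, 0 < C ∧ ∀ ε : ℝ, 0 < ε → ε ≤ 1 → ∀ (u : E N → ℝ) (g : E N → E N), IsLeast p ε u g →
      ε ^ sg N p * (∫ x, dens u g x) ^ ((p - 2) / 2) ≤ C := by
  let φ : ContDiffBump (0 : E N) := ⟨1 / 2, 1, by norm_num, by norm_num⟩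
  have hφ : IsTest (φ : E N → ℝ) := ⟨φ.contDiff, φ.hasCompactSupport⟩
  set D : ℝ := (∫ x, ‖gradient φ x‖ ^ 2) + ∫ x, (φ x) ^ 2 with hD
  set c : ℝ := ∫ x, |φ x| ^ p with hc
  have hD0 : 0 ≤ D := add_nonneg (integral_nonneg fun x => sq_nonneg _)
    (integral_nonneg fun x => sq_nonneg _)
  have hcont : Continuous fun x => |φ x| ^ p :=
    hφ.1.continuous.abs.rpow_const fun x => Or.inr (by linarith)
  have hcp : 0 < c := by
    refine hcont.integral_pos_of_hasCompactSupport_nonneg_nonzero (x := 0) (hφ.2.mono ?_)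
      (fun x => by positivity) ?_
    · intro x hx
      simp only [Function.mem_support, ne_eq] at hx ⊢
      intro h0
      apply hx
      rw [h0, abs_zero, Real.zero_rpow (by linarith)]
    · have : φ 0 = 1 := φ.one_of_mem_closedBall (Metric.mem_closedBall_self (by
        change (0 : ℝ) ≤ 1 / 2; norm_num))
      rw [this]; simp
  refine ⟨(D + 1) ^ (p / 2) / c, by positivity, ?_⟩
  intro ε hε hε1 u g hu
  -- the scaled bump
  set ψ : E N → ℝ := fun x => φ (ε⁻¹ • x) with hψ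
  have hψC : ContDiff ℝ ∞ ψ := φ.contDiff.comp (contDiff_const_smul ε⁻¹)
  have hsupp : ∀ x, x ∉ Metric.ball (0 : E N) ε → ψ x = 0 := by
    intro x hx
    have hx2 : ε⁻¹ • x ∉ Metric.ball (0 : E N) 1 := by
      rw [mem_ball_zero_iff, not_lt, norm_smul, Real.norm_eq_abs, abs_of_pos (inv_pos.2 hε)]
      rw [mem_ball_zero_iff, not_lt] at hx
      rw [← div_eq_inv_mul, le_div_iff₀ hε]
      linarith
    have : ε⁻¹ • x ∉ Function.support φ := by rw [φ.support_eq]; exact hx2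
    simpa [hψ] using this
  have hψc : HasCompactSupport ψ :=
    HasCompactSupport.intro (isCompact_closedBall (0 : E N) ε) fun x hx =>
      hsupp x fun h => hx (Metric.ball_subset_closedBall h)
  have hψT : IsTest ψ := ⟨hψC, hψc⟩
  have hgrad : ∀ x, gradient ψ x = ε⁻¹ • gradient φ (ε⁻¹ • x) := by
    intro x
    simp only [gradient, hψ]
    rw [fderiv_comp_smul]
    simp
  have e1 : ∫ x, ‖gradient ψ x‖ ^ 2 = ε ^ ((N : ℝ) - 2) * ∫ x, ‖gradient φ x‖ ^ 2 := by
    have h1 := Measure.integral_comp_smul (volume : Measure (E N))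
      (fun x => ‖gradient φ x‖ ^ 2) ε⁻¹
    have h2 : ∫ x, ‖gradient ψ x‖ ^ 2 = (ε⁻¹) ^ 2 * ∫ x, ‖gradient φ (ε⁻¹ • x)‖ ^ 2 := by
      rw [← integral_const_mul]
      refine integral_congr_ae (Eventually.of_forall fun x => ?_)
      simp only
      rw [hgrad, norm_smul, mul_pow, Real.norm_eq_abs, sq_abs]
    have habs : |((ε⁻¹) ^ N)⁻¹| = ε ^ N := by
      rw [inv_pow, inv_inv, abs_of_nonneg (by positivity)]
    have h3 : ε ^ ((N : ℝ) - 2) = ε ^ N / ε ^ 2 := by
      rw [Real.rpow_sub hε, Real.rpow_natCast]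
      norm_num
    rw [h2, h1, finrank_euclideanSpace, Fintype.card_fin, smul_eq_mul, habs, h3]
    field_simp
  have e2 : ∫ x, (ψ x) ^ 2 = ε ^ (N : ℝ) * ∫ x, (φ x) ^ 2 := by
    have h1 := Measure.integral_comp_smul (volume : Measure (E N)) (fun x => (φ x) ^ 2) ε⁻¹
    rw [hψ]
    simp only
    rw [h1, finrank_euclideanSpace, Fintype.card_fin, smul_eq_mul, inv_pow, inv_inv,
      abs_of_nonneg (by positivity), Real.rpow_natCast]
  have e3 : ∫ x, Q ε x * |ψ x| ^ p = ε ^ (N : ℝ) * c := by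
    have h0 : ∫ x, Q ε x * |ψ x| ^ p = ∫ x, |ψ x| ^ p := by
      refine integral_congr_ae (Eventually.of_forall fun x => ?_)
      simp only
      by_cases hx : x ∈ Metric.ball (0 : E N) ε
      · have : x ∈ core N ε := by
          have h2 : (pt (0 : Fin N → ℤ) : E N) = 0 := by
            ext i; simp [pt]
          exact ball_sub_core ε 0 (by rwa [h2])
        rw [Q_of_mem this, one_mul]
      · rw [hsupp x hx, abs_zero, Real.zero_rpow (by linarith), mul_zero]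
    have h1 := Measure.integral_comp_smul (volume : Measure (E N)) (fun x => |φ x| ^ p) ε⁻¹
    rw [h0, hψ]
    simp only
    rw [h1, finrank_euclideanSpace, Fintype.card_fin, smul_eq_mul, inv_pow, inv_inv,
      abs_of_nonneg (by positivity), Real.rpow_natCast]
  have e4 : ∫ x, dens ψ (gradient ψ) x ≤ ε ^ ((N : ℝ) - 2) * (D + 1) := by
    have h1 : ∫ x, dens ψ (gradient ψ) x = (∫ x, ‖gradient ψ x‖ ^ 2) + ∫ x, (ψ x) ^ 2 :=
      integral_add ((hψT.grad_memLp 2).integrable_norm_pow (by norm_num))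
        (hψT.memLp 2).integrable_sq
    have h2 : ε ^ (N : ℝ) ≤ ε ^ ((N : ℝ) - 2) :=
      Real.rpow_le_rpow_of_exponent_ge hε hε1 (by linarith)
    have h3 : 0 ≤ ∫ x, (φ x) ^ 2 := integral_nonneg fun x => sq_nonneg _
    have h4 : 0 < ε ^ ((N : ℝ) - 2) := Real.rpow_pos_of_pos hε _
    rw [h1, e1, e2]
    have h5 := mul_le_mul_of_nonneg_right h2 h3
    rw [hD]
    nlinarith
  have hkey := hu.key hp (InH1.of_test hψT)
  rw [e3] at hkey
  set A : ℝ := (∫ x, dens u g x) ^ ((p - 2) / 2) with hA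
  have hA0 : 0 ≤ A := Real.rpow_nonneg (integral_nonneg (dens_nonneg u g)) _
  have h5 : (∫ x, dens ψ (gradient ψ) x) ^ (p / 2) ≤ (ε ^ ((N : ℝ) - 2) * (D + 1)) ^ (p / 2) :=
    Real.rpow_le_rpow (integral_nonneg (dens_nonneg _ _)) e4 (by linarith)
  have h6 : (ε ^ ((N : ℝ) - 2) * (D + 1)) ^ (p / 2) =
      ε ^ (((N : ℝ) - 2) * (p / 2)) * (D + 1) ^ (p / 2) := by
    rw [Real.mul_rpow (by positivity) (by positivity), ← Real.rpow_mul hε.le]
  have h7 : A * (ε ^ (N : ℝ) * c) ≤ ε ^ (((N : ℝ) - 2) * (p / 2)) * (D + 1) ^ (p / 2) := by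
    rw [← h6]; exact hkey.trans h5
  have h8 : ε ^ sg N p * ε ^ (((N : ℝ) - 2) * (p / 2)) = ε ^ (N : ℝ) := by
    rw [← Real.rpow_add hε]
    congr 1
    unfold sg; ring
  have h9 : 0 < ε ^ (((N : ℝ) - 2) * (p / 2)) := Real.rpow_pos_of_pos hε _
  rw [le_div_iff₀ hcp]
  have h10 : ε ^ (((N : ℝ) - 2) * (p / 2)) * (ε ^ sg N p * A * c) ≤
      ε ^ (((N : ℝ) - 2) * (p / 2)) * (D + 1) ^ (p / 2) := by
    calc ε ^ (((N : ℝ) - 2) * (p / 2)) * (ε ^ sg N p * A * c)
        = A * ((ε ^ sg N p * ε ^ (((N : ℝ) - 2) * (p / 2))) * c) := by ring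
      _ ≤ _ := by rw [h8]; exact h7
  exact le_of_mul_le_mul_left h10 h9

end Pool.Agent.Q62.PC
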