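import Pool.Agent.Q62.PC.H1

/-! Translations and the Gagliardo-Nirenberg inequality in `H¹(ℝᴺ)`. -/

open MeasureTheory Set Filter Topology
open scoped ENNReal NNReal ContDiff

namespace Pool.Agent.Q62.PC

theorem jensen_sq {F : ℝ → ℝ} (hF : Continuous F) :
    (∫ t in (0 : ℝ)..1, F t) ^ 2 ≤ ∫ t in (0 : ℝ)..1, F t ^ 2 := by
  set c : ℝ := ∫ t in (0 : ℝ)..1, F t with hc
  have h0 : 0 ≤ ∫ t in (0 : ℝ)..1, (F t - c) ^ 2 :=
    intervalIntegral.integral_nonneg (by norm_num) fun t _ => sq_nonneg _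
  have i1 : IntervalIntegrable (fun t => F t ^ 2) volume 0 1 := (hF.pow 2).intervalIntegrable _ _
  have i2 : IntervalIntegrable (fun t => 2 * c * F t) volume 0 1 :=
    (continuous_const.mul hF).intervalIntegrable _ _
  have i3 : IntervalIntegrable (fun _ : ℝ => c ^ 2) volume 0 1 :=
    continuous_const.intervalIntegrable _ _
  have e : ∫ t in (0 : ℝ)..1, (F t - c) ^ 2 =
      (∫ t in (0 : ℝ)..1, F t ^ 2) - 2 * c * c + c ^ 2 := by
    have e1 : ∀ t, (F t - c) ^ 2 = (F t ^ 2 - 2 * c * F t) + c ^ 2 := fun t => by ring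
    simp only [e1]
    rw [intervalIntegral.integral_add (i1.sub i2) i3, intervalIntegral.integral_sub i1 i2,
      intervalIntegral.integral_const_mul, ← hc]
    simp
  rw [e] at h0
  nlinarith

theorem transl_test {N : ℕ} {φ : E N → ℝ} (hφ : IsTest φ) (h : E N) :
    ∫ x, (φ (x + h) - φ x) ^ 2 ≤ ‖h‖ ^ 2 * ∫ x, ‖gradient φ x‖ ^ 2 := by
  have hG : Continuous fun q : E N × ℝ => ‖h‖ ^ 2 * ‖gradient φ (q.1 + q.2 • h)‖ ^ 2 := by
    have := grad_cont hφ.c1
    fun_prop
  have hpt : ∀ x, (φ (x + h) - φ x) ^ 2 ≤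
      ∫ t in (0 : ℝ)..1, ‖h‖ ^ 2 * ‖gradient φ (x + t • h)‖ ^ 2 := by
    intro x
    have hline : ∀ t : ℝ, HasDerivAt (fun t : ℝ => φ (x + t • h))
        (fderiv ℝ φ (x + t • h) h) t := by
      intro t
      have d1 : HasFDerivAt φ (fderiv ℝ φ (x + t • h)) (x + t • h) :=
        ((hφ.c1.differentiable (by norm_num)).differentiableAt).hasFDerivAt
      have d2 : HasDerivAt (fun t : ℝ => x + t • h) h t := by
        simpa using ((hasDerivAt_id t).smul_const h).const_add x
      exact d1.comp_hasDerivAt t d2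
    have hcont : Continuous fun t : ℝ => fderiv ℝ φ (x + t • h) h := by
      have h1 := hφ.c1.continuous_fderiv (by norm_num)
      have h2 : Continuous fun t : ℝ => fderiv ℝ φ (x + t • h) :=
        h1.comp (continuous_const.add (continuous_id.smul continuous_const))
      exact h2.clm_apply continuous_const
    have hftc : ∫ t in (0 : ℝ)..1, fderiv ℝ φ (x + t • h) h = φ (x + h) - φ x := by
      have := intervalIntegral.integral_eq_sub_of_hasDerivAt (f := fun t : ℝ => φ (x + t • h))
        (fun t _ => hline t) (hcont.intervalIntegrable 0 1)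
      simpa using this
    rw [← hftc]
    refine (jensen_sq hcont).trans ?_
    refine intervalIntegral.integral_mono_on (by norm_num)
      ((hcont.pow 2).intervalIntegrable _ _) ?_ ?_
    · exact (hG.comp (continuous_const.prodMk continuous_id)).intervalIntegrable _ _
    · intro t _
      have h3 : |fderiv ℝ φ (x + t • h) h| ≤ ‖fderiv ℝ φ (x + t • h)‖ * ‖h‖ := by
        have := (fderiv ℝ φ (x + t • h)).le_opNorm h
        rwa [Real.norm_eq_abs] at this
      rw [norm_gradient_eq, ← sq_abs, ← mul_pow, mul_comm ‖h‖]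
      exact pow_le_pow_left₀ (abs_nonneg _) h3 2
  -- integrate
  have hD : Continuous fun x => (φ (x + h) - φ x) ^ 2 := by
    have := hφ.1.continuous
    fun_prop
  have hB : ∀ t : ℝ, ∫⁻ x, ENNReal.ofReal (‖h‖ ^ 2 * ‖gradient φ (x + t • h)‖ ^ 2) =
      ENNReal.ofReal (‖h‖ ^ 2 * ∫ x, ‖gradient φ x‖ ^ 2) := by
    intro t
    have hgi : Integrable (fun x => ‖h‖ ^ 2 * ‖gradient φ x‖ ^ 2) (volume : Measure (E N)) :=
      ((hφ.grad_memLp 2).integrable_norm_pow (by norm_num)).const_mul _
    have e1 : ∫⁻ x, ENNReal.ofReal (‖h‖ ^ 2 * ‖gradient φ (x + t • h)‖ ^ 2) =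
        ∫⁻ x, ENNReal.ofReal (‖h‖ ^ 2 * ‖gradient φ x‖ ^ 2) :=
      lintegral_add_right_eq_self (fun x => ENNReal.ofReal (‖h‖ ^ 2 * ‖gradient φ x‖ ^ 2)) (t • h)
    rw [e1, ← ofReal_integral_eq_lintegral_ofReal hgi (Eventually.of_forall fun x => by positivity),
      integral_const_mul]
  have hmain : ∫⁻ x, ENNReal.ofReal ((φ (x + h) - φ x) ^ 2) ≤
      ENNReal.ofReal (‖h‖ ^ 2 * ∫ x, ‖gradient φ x‖ ^ 2) := by
    calc ∫⁻ x, ENNReal.ofReal ((φ (x + h) - φ x) ^ 2)
        ≤ ∫⁻ x, ∫⁻ t in Ioc (0 : ℝ) 1, ENNReal.ofReal (‖h‖ ^ 2 * ‖gradient φ (x + t • h)‖ ^ 2) := by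
          refine lintegral_mono fun x => ?_
          have hint : Integrable (fun t : ℝ => ‖h‖ ^ 2 * ‖gradient φ (x + t • h)‖ ^ 2)
              (volume.restrict (Ioc 0 1)) := by
            have := (hG.comp (continuous_const.prodMk continuous_id :
              Continuous fun t : ℝ => (x, t))).intervalIntegrable (μ := volume) 0 1
            rwa [intervalIntegrable_iff_integrableOn_Ioc_of_le (by norm_num)] at this
          rw [← ofReal_integral_eq_lintegral_ofReal hint
            (Eventually.of_forall fun t => by positivity)]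
          refine ENNReal.ofReal_le_ofReal ?_
          rw [← intervalIntegral.integral_of_le (by norm_num)]
          exact hpt x
      _ = ∫⁻ t in Ioc (0 : ℝ) 1, ∫⁻ x, ENNReal.ofReal (‖h‖ ^ 2 * ‖gradient φ (x + t • h)‖ ^ 2) := by
          refine lintegral_lintegral_swap ?_
          exact (ENNReal.continuous_ofReal.comp hG).measurable.aemeasurable
      _ = ENNReal.ofReal (‖h‖ ^ 2 * ∫ x, ‖gradient φ x‖ ^ 2) := by
          simp only [hB]
          simp
  have hDi : Integrable (fun x => (φ (x + h) - φ x) ^ 2) (volume : Measure (E N)) := by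
    have h1 : MemLp (fun x => φ (x + h) - φ x) 2 (volume : Measure (E N)) :=
      ((hφ.memLp 2).comp_measurePreserving (measurePreserving_add_right volume h)).sub (hφ.memLp 2)
    exact h1.integrable_sq
  rw [← ofReal_integral_eq_lintegral_ofReal hDi (Eventually.of_forall fun x => sq_nonneg _)] at hmain
  exact (ENNReal.ofReal_le_ofReal_iff (by positivity)).1 hmain

theorem InH1.transl_le {N : ℕ} {u : E N → ℝ} {g : E N → E N} (hu : InH1 u g) (h : E N) :
    ∫ x, (u (x + h) - u x) ^ 2 ≤ ‖h‖ ^ 2 * ∫ x, ‖g x‖ ^ 2 := by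
  obtain ⟨u1, u2, φ, u3, u4, u5⟩ := hu
  have mp : MeasurePreserving (fun x : E N => x + h) volume volume :=
    measurePreserving_add_right volume h
  have m : ∀ w : E N → ℝ, MemLp w 2 (volume : Measure (E N)) →
      MemLp (fun x => w (x + h) - w x) 2 (volume : Measure (E N)) := fun w hw =>
    (hw.comp_measurePreserving mp).sub hw
  have hlim : Tendsto (fun k => eLpNorm ((fun x => φ k (x + h) - φ k x) -
      fun x => u (x + h) - u x) 2 volume) atTop (𝓝 0) := by
    have e : ∀ k, ((fun x => φ k (x + h) - φ k x) - fun x => u (x + h) - u x) =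
        ((φ k - u) ∘ fun x : E N => x + h) - (φ k - u) := by
      intro k; funext x; simp only [Pi.sub_apply, Function.comp_apply]; ring
    have h3 := u4.add u4
    rw [add_zero] at h3
    refine tendsto_of_tendsto_of_tendsto_of_le_of_le tendsto_const_nhds h3 (fun k => bot_le)
      (fun k => ?_)
    have ha : AEStronglyMeasurable (φ k - u) (volume : Measure (E N)) :=
      (((u3 k).memLp 2).sub u1).aestronglyMeasurable
    simp only [e]
    refine (eLpNorm_sub_le (ha.comp_measurePreserving mp) ha (by norm_num)).trans ?_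
    rw [eLpNorm_comp_measurePreserving ha mp]
  have l1 := sqlim (fun k => m (φ k) ((u3 k).memLp 2)) (m u u1) hlim
  have l2 := sqlim (fun k => (u3 k).grad_memLp 2) u2 u5
  have e1 : ∀ w : E N → ℝ, ∫ x, ‖w (x + h) - w x‖ ^ 2 = ∫ x, (w (x + h) - w x) ^ 2 := by
    intro w
    refine integral_congr_ae (Eventually.of_forall fun x => ?_)
    simp only [Real.norm_eq_abs, sq_abs]
  simp only [e1] at l1
  exact le_of_tendsto_of_tendsto' l1 (l2.const_mul (‖h‖ ^ 2)) fun k => transl_test (u3 k) h

/-- the Gagliardo-Nirenberg inequality in `H¹(ℝᴺ)` -/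
theorem gn (N : ℕ) (hN : 2 ≤ N) (p : ℝ) (hp : 2 < p) (hp2 : p * ((N : ℝ) - 2) < 2 * N) :
    ∃ C : ℝ, 0 < C ∧ ∀ (u : E N → ℝ) (g : E N → E N), InH1 u g →
      Integrable (fun x => |u x| ^ p) (volume : Measure (E N)) ∧ ∫ x, |u x| ^ p ≤
      C * (∫ x, (u x) ^ 2) ^ (sg N p / 2) * (∫ x, ‖g x‖ ^ 2) ^ ((p - sg N p) / 2) := by
  obtain ⟨C, hC, H⟩ := gn_test N hN p hp hp2
  have hs := sg_pos hp2
  have hs2 := sg_lt hN hp
  refine ⟨C, hC, ?_⟩
  rintro u g ⟨u1, u2, φ, u3, u4, u5⟩
  have l1 := sqlim (fun k => (u3 k).memLp 2) u1 u4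
  have l2 := sqlim (fun k => (u3 k).grad_memLp 2) u2 u5
  have e1 : ∀ w : E N → ℝ, ∫ x, ‖w x‖ ^ 2 = ∫ x, (w x) ^ 2 := by
    intro w
    refine integral_congr_ae (Eventually.of_forall fun x => ?_)
    simp only [Real.norm_eq_abs, sq_abs]
  simp only [e1] at l1
  set B : ℝ := C * (∫ x, (u x) ^ 2) ^ (sg N p / 2) * (∫ x, ‖g x‖ ^ 2) ^ ((p - sg N p) / 2) with hB
  have hB0 : 0 ≤ B := by
    have h1 : 0 ≤ ∫ x, (u x) ^ 2 := integral_nonneg fun x => sq_nonneg _
    have h2 : 0 ≤ ∫ x, ‖g x‖ ^ 2 := integral_nonneg fun x => sq_nonneg _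
    positivity
  have l3 : Tendsto (fun k => C * (∫ x, (φ k x) ^ 2) ^ (sg N p / 2) *
      (∫ x, ‖gradient (φ k) x‖ ^ 2) ^ ((p - sg N p) / 2)) atTop (𝓝 B) := by
    refine (Tendsto.const_mul C (l1.rpow_const (Or.inr (by linarith)))).mul
      (l2.rpow_const (Or.inr (by linarith)))
  have hm : TendstoInMeasure volume φ atTop u :=
    tendstoInMeasure_of_tendsto_eLpNorm (p := 2) (by norm_num)
      (fun k => (u3 k).1.continuous.aestronglyMeasurable) u1.aestronglyMeasurable u4
  obtain ⟨ns, hns, hae⟩ := hm.exists_seq_tendsto_ae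
  have hlow : ∫⁻ x, ENNReal.ofReal (|u x| ^ p) ≤ ENNReal.ofReal B := by
    calc ∫⁻ x, ENNReal.ofReal (|u x| ^ p)
        = ∫⁻ x, liminf (fun k => ENNReal.ofReal (|φ (ns k) x| ^ p)) atTop := by
          refine lintegral_congr_ae ?_
          filter_upwards [hae] with x hx
          have : Tendsto (fun k => ENNReal.ofReal (|φ (ns k) x| ^ p)) atTop
              (𝓝 (ENNReal.ofReal (|u x| ^ p))) :=
            (ENNReal.continuous_ofReal.tendsto _).comp
              ((hx.abs).rpow_const (Or.inr (by linarith)))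
          exact this.liminf_eq.symm
      _ ≤ liminf (fun k => ∫⁻ x, ENNReal.ofReal (|φ (ns k) x| ^ p)) atTop := by
          refine lintegral_liminf_le fun k => ?_
          have : Continuous fun x => |φ (ns k) x| ^ p :=
            (u3 (ns k)).1.continuous.abs.rpow_const fun x => Or.inr (by linarith)
          exact (ENNReal.continuous_ofReal.comp this).measurable
      _ ≤ liminf (fun k => ENNReal.ofReal (C * (∫ x, (φ (ns k) x) ^ 2) ^ (sg N p / 2) *
            (∫ x, ‖gradient (φ (ns k)) x‖ ^ 2) ^ ((p - sg N p) / 2))) atTop := by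
          refine liminf_le_liminf (Eventually.of_forall fun k => ?_)
          have hcs : HasCompactSupport fun x => |φ (ns k) x| ^ p := by
            refine (u3 (ns k)).2.mono ?_
            intro x hx
            simp only [Function.mem_support, ne_eq] at hx ⊢
            intro h0
            apply hx
            rw [h0, abs_zero, Real.zero_rpow (by linarith)]
          have hct : Continuous fun x => |φ (ns k) x| ^ p :=
            (u3 (ns k)).1.continuous.abs.rpow_const fun x => Or.inr (by linarith)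
          rw [← ofReal_integral_eq_lintegral_ofReal (hct.integrable_of_hasCompactSupport hcs)
            (Eventually.of_forall fun x => by positivity)]
          exact ENNReal.ofReal_le_ofReal (H _ (u3 (ns k)))
      _ = ENNReal.ofReal B :=
          ((ENNReal.continuous_ofReal.tendsto _).comp (l3.comp hns.tendsto_atTop)).liminf_eq
  have hint : Integrable (fun x => |u x| ^ p) (volume : Measure (E N)) := by
    refine ⟨?_, ?_⟩
    · have := u1.aestronglyMeasurable.aemeasurable
      exact ((this.norm).pow_const p).aestronglyMeasurable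
    · rw [hasFiniteIntegral_iff_ofReal (Eventually.of_forall fun x => by positivity)]
      exact lt_of_le_of_lt hlow ENNReal.ofReal_lt_top
  refine ⟨hint, ?_⟩
  rw [← ofReal_integral_eq_lintegral_ofReal hint (Eventually.of_forall fun x => by positivity)]
    at hlow
  exact (ENNReal.ofReal_le_ofReal_iff hB0).1 hlow

end Pool.Agent.Q62.PC
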